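import Pool.Agent.H6.NB.Defs

/-!
# An oracle with NP in BQP and Σ₂ not in BQP: module targets
-/

set_option autoImplicit false

namespace Pool.Agent.H6.NB

open Finset Filter

/-! ## Part A: the ideal world -/

/-- TUR: large conflict-free subsets. -/
def T_TUR : Prop := ∀ (α : Type) [DecidableEq α] (S : Finset α) (R : α → α → Prop) [DecidableRel R]
  (D : ℕ), (∀ x ∈ S, (S.filter (R x)).card ≤ D) →
  ∃ T ⊆ S, S.card ≤ (2 * D + 1) * T.card ∧ ∀ x ∈ T, ∀ y ∈ T, x ≠ y → ¬ R x y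

/-- CHO: binomial coefficients. -/
def T_CHO : Prop := ∀ q r k : ℕ, 1 ≤ q → 5 * q * r ≤ k → (4 * q) ^ r ≤ k.choose r

/-- FIB: decoding step by step. -/
def T_FIB : Prop := ∀ (E X I : Type) [DecidableEq E] [DecidableEq X] [DecidableEq I]
  (P : Finset (E × Finset X)) (pw : E → Finset X → E) (L : E → Finset I) (xo : I → X)
  (nx : I → E → E) (q : ℕ), (∀ e, pw e ∅ = e) → (∀ e, (L e).card ≤ q) →
  (∀ e Z, (e, Z) ∈ P → Z.Nonempty → ∃ i ∈ L (pw e Z), xo i ∈ Z ∧ (e, Z.erase (xo i)) ∈ P ∧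
    pw e (Z.erase (xo i)) = nx i (pw e Z)) →
  ∀ r e', (P.filter fun p => p.2.card = r ∧ pw p.1 p.2 = e').card ≤ q ^ r

/-- BAS: the table only. -/
def T_BAS : Prop := ∀ (X Yv : Type) [Fintype X] [DecidableEq X] [Fintype Yv] [DecidableEq Yv]
  (t r k : ℕ) (G : (X → Option Yv) → Bool),
  (∀ Y, G Y = true → ∃ A : Finset (X × Yv), A.card ≤ t ∧
    ∀ Y' : X → Option Yv, (∀ p ∈ A, (Y' p.1 = some p.2 ↔ Y p.1 = some p.2)) → G Y' = true) →
  Fintype.card X ≤ Fintype.card Yv → 1 ≤ t → (2 * t + 1) * (5 * t * r) ≤ k →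
  (univ.filter fun Y : X → Yv =>
    k < (univ.filter fun x => G (tot Y) = false ∧ G (sta (tot Y) x) = true).card).card * 4 ^ r ≤
    Fintype.card Yv ^ Fintype.card X

/-- LOC: dependence on the levels. -/
def T_LOC : Prop := ∀ (X Yv Ω : Type) (lev : Ω → ℕ) (t j : ℕ) (G : Fn X Yv Ω), Cert lev t j G →
  ∀ Y e e', (∀ s, lev s < j → e s = e' s) → G Y e = G Y e'

/-- EXB: basic facts on the encrypted answers. -/
def T_EXB : Prop := ∀ (X Yv Ω : Type) [DecidableEq X] (acc : Ω → Fn X Yv Ω) (lev : Ω → ℕ) (t h : ℕ),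
  Lvl acc lev t h →
  (∀ Y θ s, el acc Y θ h s = xor (acc s Y (el acc Y θ h)) (θ s)) ∧
  (∀ Y θ e, (∀ s, e s = xor (acc s Y e) (θ s)) → e = el acc Y θ h) ∧
  (∀ Y e x s, dlt acc h Y e x s = xor (acc s Y e) (acc s (sta Y x) (ex acc h Y e x))) ∧
  (∀ Y e e' x s, (∀ s', lev s' < lev s → e s' = e' s') →
    dlt acc h Y e x s = dlt acc h Y e' x s)

/-- ONE: rows whose removal changes `G` from true to false. -/
def T_ONE : Prop := ∀ (X Yv Ω : Type) [Fintype X] [DecidableEq X] [DecidableEq Yv]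
  (acc : Ω → Fn X Yv Ω) (lev : Ω → ℕ) (t h j M : ℕ) (K : ℕ → ℕ) (G : Fn X Yv Ω) (Y : X → Option Yv)
  (e : Ω → Bool), Lvl acc lev t h → Cert lev t j G → Typ acc lev h K j Y e → 1 ≤ M →
  (∀ i < j, K i ≤ M) →
  (univ.filter fun x => G Y e = true ∧ G (sta Y x) (ex acc h Y e x) = false).card ≤ t * M

/-- STA: one level, many sensitive rows. -/
def T_STA : Prop := ∀ (X Yv Ω : Type) [Fintype X] [DecidableEq X] [DecidableEq Yv] [Fintype Ω]
  [DecidableEq Ω] (acc : Ω → Fn X Yv Ω) (lev : Ω → ℕ) (t h j r k k' : ℕ) (K : ℕ → ℕ)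
  (G : Fn X Yv Ω) (Y : X → Option Yv), Lvl acc lev t h → Cert lev t (j + 1) G → 1 ≤ t → 1 ≤ K j →
  (2 * (t * K j) + 1) * (5 * (t * K j + k) * r) ≤ k' →
  ∀ p : (Ω → Bool) → Prop, (∀ e, p e → Typ acc lev h K (j + 1) Y e ∧ k' < (upx acc h G Y e).card ∧
    ∀ Z : Finset X, Z.card ≤ r → (uph acc lev h G j Y (fl acc lev h Y j e Z)).card ≤ k) →
  ∀ [DecidablePred p], (univ.filter p).card * 4 ^ r ≤ 2 ^ Fintype.card Ω

open Classical in
/-- STB: the flips preserve the measure. -/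
def T_STB : Prop := ∀ (X Yv Ω : Type) [Fintype X] [DecidableEq X] [Fintype Ω] [DecidableEq Ω]
  (acc : Ω → Fn X Yv Ω) (lev : Ω → ℕ) (t h j k : ℕ) (K : ℕ → ℕ) (G : Fn X Yv Ω)
  (Y : X → Option Yv) (Z : Finset X), Lvl acc lev t h →
  (univ.filter fun e : Ω → Bool => Typ acc lev h K j Y e ∧
      k < (uph acc lev h G j Y (fl acc lev h Y j e Z)).card).card =
    (univ.filter fun e : Ω → Bool => Typ acc lev h K j Y e ∧ k < (uph acc lev h G j Y e).card).card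

open Classical in
/-- SWA: exchange of the answers of level `j` by independent ones. -/
def T_SWA : Prop := ∀ (Z Ω : Type) [Fintype Z] [Fintype Ω] [DecidableEq Ω] (L : Ω → Prop)
  (p : Z → (Ω → Bool) → (Ω → Bool) → Prop) (R B : ℕ),
  (∀ z e e' a a', (∀ s, ¬ L s → e s = e' s) → (∀ s, L s → a s = a' s) → (p z e a ↔ p z e' a')) →
  (∀ a, (univ.filter fun x : Z × (Ω → Bool) => p x.1 x.2 a).card * R ≤ B) →
  (univ.filter fun x : Z × (Ω → Bool) => p x.1 x.2 x.2).card * R ≤ B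

open Classical in
/-- STC: the bound for `uph` follows from the bound of the previous level. -/
def T_STC : Prop := ∀ (X Yv Ω : Type) [Fintype X] [DecidableEq X] [Fintype Yv] [Fintype Ω]
  [DecidableEq Ω] (acc : Ω → Fn X Yv Ω) (lev : Ω → ℕ) (t h j k R B : ℕ) (K : ℕ → ℕ),
  Lvl acc lev t h → j < h →
  (∀ G : Fn X Yv Ω, Cert lev t j G → (univ.filter fun p : (X → Yv) × (Ω → Bool) =>
    Typ acc lev h K j (tot p.1) p.2 ∧ k < (upx acc h G (tot p.1) p.2).card).card * R ≤ B) →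
  ∀ G : Fn X Yv Ω, Cert lev t (j + 1) G → (univ.filter fun p : (X → Yv) × (Ω → Bool) =>
    Typ acc lev h K j (tot p.1) p.2 ∧ k < (uph acc lev h G j (tot p.1) p.2).card).card * R ≤ B

open Classical in
/-- STJ: the induction over the levels. -/
def T_STJ : Prop := ∀ (X Yv Ω : Type) [Fintype X] [DecidableEq X] [Fintype Yv] [DecidableEq Yv]
  [Fintype Ω] [DecidableEq Ω] (acc : Ω → Fn X Yv Ω) (lev : Ω → ℕ) (t h : ℕ) (r k K : ℕ → ℕ),
  Lvl acc lev t h → Par t h (Fintype.card X) r k K → Fintype.card X ≤ Fintype.card Yv →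
  ∀ j ≤ h, ∀ G : Fn X Yv Ω, Cert lev t j G → (univ.filter fun p : (X → Yv) × (Ω → Bool) =>
    Typ acc lev h K j (tot p.1) p.2 ∧ k j < (upx acc h G (tot p.1) p.2).card).card * 4 ^ r j ≤
    2 * (Fintype.card Yv ^ Fintype.card X * 2 ^ Fintype.card Ω)

open Classical in
/-- IDE: the ideal world is typical. -/
def T_IDE : Prop := ∀ (X Yv Ω : Type) [Fintype X] [DecidableEq X] [Fintype Yv] [DecidableEq Yv]
  [Fintype Ω] [DecidableEq Ω] (acc : Ω → Fn X Yv Ω) (lev : Ω → ℕ) (t h R : ℕ) (r k K : ℕ → ℕ),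
  Lvl acc lev t h → Par t h (Fintype.card X) r k K → Fintype.card X ≤ Fintype.card Yv →
  (∀ j < h, R ≤ r j) → (univ.filter fun p : (X → Yv) × (Ω → Bool) =>
    ¬ Typ acc lev h K h (tot p.1) p.2).card * 4 ^ R ≤
    Fintype.card Ω * (2 * (Fintype.card Yv ^ Fintype.card X * 2 ^ Fintype.card Ω))

/-! ## Part B: from the real to the ideal world -/

/-- CER: DNFs have certificates. -/
def T_CER : Prop := ∀ (X Yv Ω : Type) [DecidableEq X] [DecidableEq Yv] [DecidableEq Ω]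
  (nn qq : Ω → ℕ) (D : Ω → List (List (Crd X Yv Ω nn qq × Bool))) (lev : Ω → ℕ) (t h S : ℕ),
  Sys D lev t h S → ∀ P, Lvl (accD D P) lev t h

/-- HYB: replacement of the blocks one after the other, from the top level down. -/
def T_HYB : Prop := ∀ (Ω : Type) [Fintype Ω] [DecidableEq Ω] (T : Ω → Type) [∀ s, Fintype (T s)]
  [∀ s, DecidableEq (T s)] (lev : Ω → ℕ) (θ : (∀ s, T s) → Ω → Bool) (m : Bool → ∀ s, T s → ℝ)
  (F : (∀ s, T s) → ℝ) (η : Ω → ℝ), (∀ b s p, 0 ≤ m b s p) → (∀ b s, ∑ p, m b s p = 1) →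
  (∀ P P' s, (∀ s', lev s' < lev s → P s' = P' s') → θ P s = θ P' s) →
  (∀ P s, |∑ p, (m true s p - m false s p) * F (Function.update P s p)| ≤ η s) →
  |∑ P, (∏ s, m (θ P s) s (P s)) * F P - ∑ P, (∏ s, m false s (P s)) * F P| ≤ ∑ s, η s

/-- CPY: replacement of independent copies. -/
def T_CPY : Prop := ∀ (N : ℕ) (V : Type) [Fintype V] [DecidableEq V] (a b : V → ℝ)
  (F : (Fin N → V) → ℝ) (η : ℝ), (∀ p, 0 ≤ a p) → (∀ p, 0 ≤ b p) → ∑ p, a p = 1 → ∑ p, b p = 1 →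
  (∀ P i, |∑ p, (a p - b p) * F (Function.update P i p)| ≤ η) →
  |∑ P, (∏ i, a (P i) - ∏ i, b (P i)) * F P| ≤ N * η

/-- CHV: change of variables between keys and encrypted answers. -/
def T_CHV : Prop := ∀ (X Yv Ω : Type) [DecidableEq X] [Fintype Ω] [DecidableEq Ω]
  (acc : Ω → Fn X Yv Ω) (lev : Ω → ℕ) (t h : ℕ) (Y : X → Option Yv)
  (f : (Ω → Bool) → (Ω → Bool) → ℝ), Lvl acc lev t h →
  ∑ κ, f κ (el acc Y κ h) = ∑ e, f (tht acc Y e) e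

/-! ## Part C: circuits -/

/-- CLB: closure properties. -/
def T_CLB : Prop := ∀ (V : Type) (S : ℕ), 2 ≤ S →
  (∀ d b, Cl V S d fun _ => b) ∧
  (∀ d d' f, d ≤ d' → Cl V S d f → Cl V S d' f) ∧
  (∀ d (ι : Type) [Fintype ι] (g : ι → (V → Bool) → Bool) (b : ι → Bool) (f : (V → Bool) → Bool),
    Fintype.card ι ≤ S → (∀ i, Cl V S d (g i)) → (∀ y, (f y = true ↔ ∃ i, g i y = b i)) →
    Cl V S (d + 1) f) ∧
  (∀ d (g : List (((V → Bool) → Bool) × Bool)) (f : (V → Bool) → Bool),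
    g.length ≤ S → (∀ c ∈ g, Cl V S d c.1) → (∀ y, (f y = true ↔ ∃ c ∈ g, c.1 y = c.2)) →
    Cl V S (d + 1) f) ∧
  (∀ d f g, Cl V S d f → Cl V S d g → Cl V S (d + 2) fun y => xor (f y) (g y))

/-- CLR: restrictions. -/
def T_CLR : Prop := ∀ (V : Type) (S d : ℕ) (f : (V → Bool) → Bool)
  (ρ : V → Option Bool), Cl V S d f → Cl V S d (rst ρ f)

/-- CLA: a DNF applied to functions of the class. -/
def T_CLA : Prop := ∀ (X Yv Ω V : Type) [DecidableEq Yv] (nn qq : Ω → ℕ)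
  (D : List (List (Crd X Yv Ω nn qq × Bool))) (lev : Ω → ℕ) (t j S d : ℕ) (Y : X → Option Yv)
  (e : (V → Bool) → Ω → Bool) (P : (V → Bool) → Blk nn qq), 2 ≤ S → t ≤ S → D.length ≤ S →
  (∀ τ ∈ D, τ.length ≤ t) → (∀ τ ∈ D, ∀ c ∈ τ, Low lev j c.1) →
  (∀ s, lev s < j → Cl V S d fun y => e y s) →
  (∀ s i v, Cl V S d fun y => P y s i v) → Cl V S (d + 2) fun y => dnf D (P y) Y (e y)

open Classical in
/-- CBD: the property of not being typical is in the class, as a function of one copy. -/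
def T_CBD : Prop := ∀ (X Yv Ω : Type) [Fintype X] [DecidableEq X] [DecidableEq Yv] [Fintype Ω]
  [DecidableEq Ω] (nn qq : Ω → ℕ) (D : Ω → List (List (Crd X Yv Ω nn qq × Bool))) (lev : Ω → ℕ)
  (t h S M : ℕ) (K : ℕ → ℕ), Sys D lev t h S → 2 ≤ S → t ≤ S → (∀ j, j < h → K j ≤ M) → M + 1 ≤ S →
  Fintype.card Ω * Fintype.card X ^ (M + 1) ≤ S → 1 ≤ Fintype.card X →
  ∀ (Y : X → Option Yv) (e : Ω → Bool) (P : Blk nn qq) (s : Ω) (i : Fin (nn s)),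
    Cl (VV (qq s)) S (5 * h + 2) fun p =>
      decide (¬ Typ (accD D (updC P s i p)) lev h K h Y e)

/-- CKT: formulas are circuits. -/
def T_CKT : Prop := ∀ (V : Type) (S d : ℕ) (f : (V → Bool) → Bool), Cl V S (d + 1) f →
  ∃ (s : ℕ) (C : Pool.Agent.H68.AC.Ckt V s (d + 1)), s ≤ (S + 1) ^ (d + 1) ∧
    ∀ y, C.val y C.out = f y

/-- DTL: decision trees of depth `w`. -/
def T_DTL : Prop := ∀ (V : Type) [Fintype V] [DecidableEq V] (t : Pool.Agent.H68.AC.DT V) (w : ℕ),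
  t.depth ≤ w → L12 (fun y => bi (t.eval y)) ≤ (w : ℝ) ^ 2

/-- HTR: Fourier coefficients and random restrictions. -/
def T_HTR : Prop := ∀ (V : Type) [Fintype V] [DecidableEq V] (d : ℕ) (q : ℝ) (F : (V → Bool) → ℝ)
  (S : Finset V), 0 < q → q ≤ 1 → q ^ (d * S.card) * |hat F S| ≤
    ∑ R : Fin d → Pool.Agent.H68.AC.PA V, Pool.Agent.H68.AC.Wt q (1 / 2) R *
      |hat (rst (Pool.Agent.H68.AC.fd R d) F) S|

/-- L12: the second level of the Fourier spectrum of a formula. -/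
def T_L12 : Prop := ∀ (V : Type) [Fintype V] [DecidableEq V] (S d w : ℕ) (f : (V → Bool) → Bool),
  1 ≤ w → Cl V S (d + 1) f → L12 (fun y => bi (f y)) ≤
    (128 * (w : ℝ)) ^ (2 * (d + 1)) *
      ((w : ℝ) ^ 2 + (Fintype.card V : ℝ) ^ 2 * ((S : ℝ) + 1) ^ (d + 1) / 2 ^ w)

/-! ## Part D: the forrelated distribution -/

/-- FOU: the multilinear extension. -/
def T_FOU : Prop := ∀ (V : Type) [Fintype V] [DecidableEq V] (F : (V → Bool) → ℝ) (W : V → ℝ),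
  mle F W = ∑ S : Finset V, hat F S * ∏ u ∈ S, W u

/-- RST: the multilinear extension around a point is an average over restrictions. -/
def T_RST : Prop := ∀ (V : Type) [Fintype V] [DecidableEq V] (v : V → ℝ), (∀ u, |v u| ≤ 1 / 2) →
  ∃ c : (V → Option Bool) → ℝ, (∀ ρ, 0 ≤ c ρ) ∧ ∑ ρ, c ρ = 1 ∧
    ∀ (F : (V → Bool) → ℝ) (z : V → ℝ),
      mle F (fun u => v u + z u) = ∑ ρ, c ρ * mle (rst ρ F) fun u => 2 * z u

/-- DIR: moments of the directions. -/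
def T_DIR : Prop := ∀ q : ℕ,
  (∀ r v, |dir q r v| ≤ √(2 ^ q)) ∧
  (∀ v, ∑ r, dir q r v = 0) ∧
  (∀ u v, u ≠ v → |∑ r, dir q r u * dir q r v| ≤ 2 ^ 2 ^ q / √(2 ^ q)) ∧
  (∀ a b, ∑ r, dir q r (false, a) * dir q r (true, b) = 2 ^ 2 ^ q * hd q a b) ∧
  (∀ (v : VV q) (x l : ℝ), (∑ r, Real.cosh (l * (x + dir q r v))) / 2 ^ 2 ^ q ≤
    Real.exp (l ^ 2 / 2) * Real.cosh (l * x))

/-- STE: one step of the walk. -/
def T_STE : Prop := ∀ (q : ℕ) (F : (VV q → Bool) → ℝ) (Λ δ : ℝ) (W : VV q → ℝ),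
  (∀ ρ, L12 (rst ρ F) ≤ Λ) → (∀ y, |F y| ≤ 1) → (∀ v, |W v| ≤ 1 / 2) → 0 ≤ δ →
  4 * δ * (2 ^ q * √(2 ^ q)) ≤ 1 →
  |(∑ r : (Fin q → Bool) → Bool, mle F (fun v => W v + δ * dir q r v)) / 2 ^ 2 ^ q - mle F W| ≤
    4 * δ ^ 2 * Λ / √(2 ^ q) + (4 * δ * (2 ^ q * √(2 ^ q))) ^ 3

/-- WLK: the expectation operators. -/
def T_WLK : Prop := ∀ (q : ℕ) (δ : ℝ), 0 ≤ δ → δ * √(2 ^ q) ≤ 1 / 2 →
  (∀ W r, (∀ v, |W v| ≤ 1) → ∀ v, |stp q δ W r v| ≤ 1) ∧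
  (∀ (n : ℕ) (G G' : (VV q → ℝ) → ℝ), (∀ W, (∀ v, |W v| ≤ 1) → G W ≤ G' W) →
    ∀ W, (∀ v, |W v| ≤ 1) → (AA q δ)^[n] G W ≤ (AA q δ)^[n] G' W) ∧
  (∀ (n : ℕ) (ι : Type) [Fintype ι] (c : ι → ℝ) (G : ι → (VV q → ℝ) → ℝ) (W : VV q → ℝ),
    (AA q δ)^[n] (fun W => ∑ i, c i * G i W) W = ∑ i, c i * (AA q δ)^[n] (G i) W) ∧
  (∀ (n : ℕ) (c : ℝ) (W : VV q → ℝ), (AA q δ)^[n] (fun _ => c) W = c)

/-- MUP: the two distributions. -/
def T_MUP : Prop := ∀ (b : Bool) (q : ℕ), (∀ p, 0 ≤ mu b q p) ∧ ∑ p, mu b q p = 1 ∧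
  ∀ F : (VV q → Bool) → ℝ, ∑ p, mu b q p * F p =
    if b then (AA q (dl q))^[Tn q] (mle F) (fun _ => 0) else mle F fun _ => 0

/-- DIF: formulas do not distinguish the two distributions. -/
def T_DIF : Prop := ∀ (q : ℕ) (F : (VV q → Bool) → ℝ) (Λ : ℝ), 10 ≤ q → (∀ ρ, L12 (rst ρ F) ≤ Λ) →
  (∀ y, |F y| ≤ 1) → |∑ p, (mu true q p - mu false q p) * F p| ≤ (Λ + 1) / √(2 ^ q)

open Classical in
/-- CSH: the walk is rarely stopped. -/
def T_CSH : Prop := ∀ q : ℕ, (AA q (dl q))^[Tn q]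
  (fun W => if ∀ v, |W v| ≤ 1 / 2 then 1 else 0) (fun _ => 0) ≥ 1 / 2

/-- PHB: the forrelation is at most one. -/
def T_PHB : Prop := ∀ (q : ℕ) (p : VV q → Bool), |phi q p| ≤ 1

/-- PHE: the expected forrelation. -/
def T_PHE : Prop := ∀ q : ℕ, eps2 q / 2 ≤ ∑ p, mu true q p * phi q p

/-- PHL: forrelation is often large in the forrelated distribution. -/
def T_PHL : Prop := ∀ q : ℕ, eps2 q / 4 ≤ ∑ p ∈ univ.filter (fun p => eps2 q / 4 ≤ phi q p), mu true q p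

/-- PHU: forrelation in the uniform distribution. -/
def T_PHU : Prop := ∀ q : ℕ, ∑ p, mu false q p * phi q p ^ 2 = 1 / 2 ^ q

open Classical in
/-- DCP: the keys can be read with high probability. -/
def T_DCP : Prop := ∀ (q N : ℕ) (b : Bool), ∑ p : Fin N → VV q → Bool,
  (∏ i, mu b q (p i)) * (if DecA q N b p then 0 else 1) ≤
    3 * (N : ℝ) ^ 2 / 2 ^ q + (1 - eps2 q / 4) ^ N

/-! ## The existence of a good configuration -/

open Classical in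
/-- EXI: there is a good configuration. -/
def T_EXI : Prop := ∀ (X Yv Ω : Type) [Fintype X] [DecidableEq X] [Fintype Yv] [DecidableEq Yv]
  [Fintype Ω] [DecidableEq Ω] (nn qq : Ω → ℕ) (D : Ω → List (List (Crd X Yv Ω nn qq × Bool)))
  (lev : Ω → ℕ) (t h R S M : ℕ) (r k K : ℕ → ℕ) (Λ : ℝ), Sys D lev t h S →
  Par t h (Fintype.card X) r k K → Fintype.card X ≤ Fintype.card Yv → 1 ≤ Fintype.card X →
  (∀ j < h, R ≤ r j) → 2 ≤ S → t ≤ S → (∀ j, j < h → K j ≤ M) → M + 1 ≤ S →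
  Fintype.card Ω * Fintype.card X ^ (M + 1) ≤ S → (∀ s, 10 ≤ qq s) →
  (∀ s f, Cl (VV (qq s)) S (5 * h + 2) f → L12 (fun y => bi (f y)) ≤ Λ) →
  8 * Fintype.card Ω ≤ 4 ^ R →
  ∑ s, (nn s : ℝ) * ((Λ + 1) / √(2 ^ qq s)) ≤ 1 / 4 →
  ∑ s, (3 * (nn s : ℝ) ^ 2 / 2 ^ qq s + (1 - eps2 (qq s) / 4) ^ nn s) ≤ 1 / 4 →
  ∃ (Y : X → Yv) (κ : Ω → Bool) (P : Blk nn qq),
    Typ (accD D P) lev h K h (tot Y) (el (accD D P) (tot Y) κ h) ∧
    ∀ s, DecA (qq s) (nn s) (κ s) (P s)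

/-! ## Part E: quantum algorithms -/

/-- BBV: the hybrid argument. -/
def T_BBV : Prop := ∀ (X : Type) [Fintype X] [DecidableEq X] [Nonempty X] (Q : QAlg)
  (O : List Bool → Bool) (O' : X → List Bool → Bool) (K : ℕ),
  (∀ i w, Q.query i = some w → (univ.filter fun x => O' x w ≠ O w).card ≤ K) →
  ∃ x, |Q.prob (O' x) - Q.prob O| ≤ 4 * Q.T * √(K / Fintype.card X)

/-- PCG: the acceptance probability depends only on the values at the queries. -/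
def T_PCG : Prop := ∀ (Q : QAlg) (O O' : List Bool → Bool),
  (∀ i w, Q.query i = some w → O w = O' w) → Q.prob O = Q.prob O'

/-- FOR: the two-query circuit. -/
def T_FOR : Prop := ∀ (O : List Bool → Bool) (s : List Bool) (i : ℕ),
  (forr s i).prob O = phi (qs s) (cpy O s i) ^ 2

/-- YES: the quantum algorithm works if the keys can be read. -/
def T_YES : Prop := ∀ (prog : List Bool → List Bool → DT) (σ O : List Bool → Bool) (s : List Bool),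
  Bld prog σ O → Dec σ s →
  (acc prog s O → 2 / 3 ≤ yesProb O s) ∧ (¬ acc prog s O → yesProb O s ≤ 1 / 3)

/-- INI: the empty seed. -/
def T_INI : Prop := ∀ s, Dec (fun _ => false) s

/-! ## Part F: oracles and strings -/

/-- COD: the code is injective, and its length. -/
def T_COD : Prop := (∀ x x' y y' i i', code x y i = code x' y' i' → x = x' ∧ y = y' ∧ i = i') ∧
  (∀ x y i, (code x y i).length = 2 * x.length + 2 * y.length + i + 2)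

/-- BLD: the oracle built from a seed. -/
def T_BLD : Prop := ∀ (prog : List Bool → List Bool → DT), Small prog → ∀ σ, ∃ O, Bld prog σ O

/-- BLU: short strings of the oracle depend only on short strings of the seed. -/
def T_BLU : Prop := ∀ (prog : List Bool → List Bool → DT) (σ σ' O O' : List Bool → Bool) (l : ℕ),
  Small prog → Bld prog σ O → Bld prog σ' O' → (∀ w, w.length ≤ l → σ w = σ' w) →
  ∀ w, w.length ≤ l → O w = O' w

/-- EVC: the value of a decision tree depends only on the values of the oracle at short strings. -/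
def T_EVC : Prop := ∀ (T : DT) (m : ℕ) (O O' : List Bool → Bool), T.Short m →
  (∀ w, w.length ≤ m → O w = O' w) → T.eval O = T.eval O'

/-- PTH: the accepting paths of a decision tree. -/
def T_PTH : Prop := ∀ (T : DT) (m : ℕ), T.Short m → ∃ Ps : List (List (List Bool × Bool)),
  Ps.length ≤ 2 ^ T.depth ∧ (∀ τ ∈ Ps, τ.length ≤ T.depth ∧ ∀ c ∈ τ, c.1.length ≤ m) ∧
  ∀ O, (T.eval O = true ↔ ∃ τ ∈ Ps, ∀ c ∈ τ, O c.1 = c.2)

/-- FIS: finitely many strings. -/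
def T_FIS : Prop := (∀ m : ℕ, ∃ Ws : List (List Bool), Ws.length ≤ 2 ^ (m + 1) ∧
    ∀ w : List Bool, w.length ≤ m → w ∈ Ws) ∧
  (∀ n a : ℕ, Finite (Om n a)) ∧
  (∀ n a : ℕ, ∀ [Fintype (Om n a)], Fintype.card (Om n a) ≤ 2 ^ n ^ a ∧
    ∑ s : Om n a, (1 / 4 : ℝ) ^ s.1.length ≤ 2 / 2 ^ n ^ 2)

/-- CLS: the classification of the strings. -/
def T_CLS : Prop := ∀ (n a : ℕ) (o : List Bool → Bool),
  (∀ u v : Fin n → Bool, cls n a o (bse (List.ofFn u) (List.ofFn v)) = .bas u v) ∧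
  (∀ s : Om n a, cls n a o (key s.1) = .key s) ∧
  (∀ (s : Om n a) (i : Fin (ns s.1)) (v : VV (qs s.1)),
    cls n a o (blk s.1 i v.1 (List.ofFn v.2)) = .blk s i v) ∧
  (∀ w, (∃ u v : Fin n → Bool, w = bse (List.ofFn u) (List.ofFn v)) ∨ (∃ s : Om n a, w = key s.1) ∨
    (∃ (s : Om n a) (i : Fin (ns s.1)) (v : VV (qs s.1)), w = blk s.1 i v.1 (List.ofFn v.2)) ∨
    cls n a o w = .cst (o w))

/-- LVL: the levels. -/
def T_LVL : Prop := ∀ n a : ℕ, 2 ≤ n →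
  (∀ s s' : List Bool, n ^ 2 ≤ s'.length → s'.length ^ 2 ≤ s.length → lv n s' < lv n s) ∧
  (∀ s : Om n (2 ^ a), lv n s.1 < a)

/-- LNK: the values of the oracle of the stage. -/
def T_LNK : Prop := ∀ (prog : List Bool → List Bool → DT) (n a : ℕ) (σ₀ O₀ O : List Bool → Bool)
  (Y : (Fin n → Bool) → Option (Fin n → Bool)) (κ : Om n a → Bool)
  (P : Blk (fun s : Om n a => ns s.1) fun s => qs s.1), Small prog → 2 ≤ n → Bld prog σ₀ O₀ →
  Bld prog (sd n a σ₀ Y κ P) O → ∀ w, w.length ≤ n ^ a →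
  O w = vl Y (fun s : Om n a => O (key s.1)) P (cls n a O₀ w)

/-- DNF: the instances as DNFs. -/
def T_DNF : Prop := ∀ (prog : List Bool → List Bool → DT) (n a t : ℕ) (o : List Bool → Bool),
  Small prog → 2 ≤ n → n ^ 2 ^ a ≤ t ^ 2 →
  ∃ D : Om n (2 ^ a) → List (List (Cs n (2 ^ a) × Bool)),
    Sys D (fun s => lv n s.1) t a (2 ^ (2 * t + 1)) ∧
    ∀ (s : Om n (2 ^ a)) Y e P, (acc prog s.1 (fun w => vl Y e P (cls n (2 ^ a) o w)) ↔
      accD D P s Y e = true)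

/-- UNI: the universal machine. -/
def T_UNI : Prop := ∀ V : ℕ → Verifier, ∃ prog, Small prog ∧
  ∀ i x O, (x ∈ (V i).lang O ↔ acc prog (inst (V i).c i x) O)

/-- DCC: `Dec` depends on finitely many strings. -/
def T_DCC : Prop := ∀ s, ∃ l, ∀ σ σ' : List Bool → Bool, (∀ w, w.length ≤ l → σ w = σ' w) →
  (Dec σ s ↔ Dec σ' s)

/-! ## Parameters -/

/-- NUM: estimates for the error terms. -/
def T_NUM : Prop := ∀ s : List Bool,
  (ns s : ℝ) * (2 ^ s.length / √(2 ^ qs s)) ≤ (1 / 4) ^ s.length ∧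
  3 * (ns s : ℝ) ^ 2 / 2 ^ qs s + (1 - eps2 (qs s) / 4) ^ ns s ≤ (1 / 4) ^ s.length

/-- PAA: the parameters of the induction are polynomial. -/
def T_PAA : Prop := ∀ a b : ℕ, ∃ B : ℕ, ∀ n t R : ℕ, 2 ≤ n → 1 ≤ t → t ≤ n ^ b → R ≤ n ^ b →
  ∃ r k K : ℕ → ℕ, Par t a (2 ^ n) r k K ∧ (∀ j < a, R ≤ r j) ∧ ∀ j < a, K j ≤ n ^ B

/-- PAR: the parameters of the stage. -/
def T_PAR : Prop := ∀ (c C : ℕ) (ε : ℝ), 0 < ε → ∃ a : ℕ, ∀ᶠ n : ℕ in atTop,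
  ∃ (t R S M w : ℕ) (r k K : ℕ → ℕ), 2 ≤ n ∧ n ^ c + c ≤ n ^ 2 ^ a ∧ 2 * n + 1 ≤ n ^ 2 ^ a ∧
  n ^ 2 ^ a ≤ t ^ 2 ∧ Par t a (2 ^ n) r k K ∧ (∀ j < a, R ≤ r j) ∧ 2 ^ (2 * t + 1) ≤ S ∧
  (∀ j < a, K j ≤ M) ∧ 1 ≤ M ∧ M + 1 ≤ S ∧ 2 ^ n ^ 2 ^ a * (2 ^ n) ^ (M + 1) ≤ S ∧
  8 * 2 ^ n ^ 2 ^ a ≤ 4 ^ R ∧ 1 ≤ w ∧
  (∀ q : ℕ, q ≤ 10 * n ^ 2 ^ a + 100 →
    (128 * (w : ℝ)) ^ (2 * (5 * a + 2)) * ((w : ℝ) ^ 2 +
      (2 * 2 ^ q) ^ 2 * ((S : ℝ) + 1) ^ (5 * a + 2) / 2 ^ w) + 1 ≤ 2 ^ n) ∧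
  4 * (C * 2 ^ ((1 / 2 - ε) * n)) * √(M / 2 ^ n) < 1 / 3

/-! ## Assembly -/

/-- STG: one stage of the construction. -/
def T_STG : Prop := ∀ (c C : ℕ) (ε : ℝ), 0 < ε → ∀ prog, Small prog → ∀ᶠ n : ℕ in atTop,
  ∀ Q : QAlg, Q.Short (n ^ c + c) → (Q.T : ℝ) ≤ C * 2 ^ ((1 / 2 - ε) * n) →
  ∀ σ₀ : List Bool → Bool, (∀ s, Dec σ₀ s) → ∃ (σ : List Bool → Bool) (m : ℕ),
    (∀ w, w.length < n → σ w = σ₀ w) ∧ (∀ s, Dec σ s) ∧
    ∀ σ' O, (∀ w, w.length ≤ m → σ' w = σ w) → Bld prog σ' O →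
      ¬ Correct Q O (sig O) (List.replicate n false)

/-- FIN: the limit of the stages. -/
def T_FIN : Prop := ∀ prog, Small prog → ∀ Q : ℕ → List Bool → QAlg,
  (∀ k, ∃ (c C : ℕ) (ε : ℝ), 0 < ε ∧ ∀ x, (Q k x).Short (x.length ^ c + c) ∧
    ((Q k x).T : ℝ) ≤ C * 2 ^ ((1 / 2 - ε) * x.length)) →
  ∃ σ O, Bld prog σ O ∧ (∀ s, Dec σ s) ∧ ∀ k m, ∃ n ≥ m,
    ¬ Correct (Q k (List.replicate n false)) O (sig O) (List.replicate n false)

end Pool.Agent.H6.NB
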