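import Pool.Agent.H6.NB.Targets

/-!
# One stage of the construction
-/

set_option autoImplicit false

namespace Pool.Agent.H6.NB.STG

open Pool.Agent.H6.NB Finset Filter

/-- The answer of an instance depends only on the values at short strings. -/
theorem acc_congr (hEVC : T_EVC) {prog : List Bool → List Bool → DT} (hs : Small prog) {s : List Bool}
    {L : ℕ} (hL : s.length ≤ L) {O O' : List Bool → Bool} (h : ∀ w : List Bool, w.length ≤ L → O w = O' w) :
    acc prog s O ↔ acc prog s O' := by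
  have key : ∀ {O O' : List Bool → Bool}, (∀ w : List Bool, w.length ≤ L → O w = O' w) →
      acc prog s O → acc prog s O' := by
    intro O O' h ⟨w, hw, he⟩
    obtain ⟨-, m, hm, hsh⟩ := hs s w hw
    refine ⟨w, hw, ?_⟩
    rw [← he]
    refine (hEVC _ m O O' hsh fun w' hw' => h w' ?_).symm
    have : m ≤ m ^ 2 := Nat.le_self_pow (by norm_num) m
    omega
  exact ⟨key h, key fun w hw => (h w hw).symm⟩

/-- The encrypted answers of the stage solve the recursion. -/
theorem fixed (hEVC : T_EVC) (hCLS : T_CLS) (hLNK : T_LNK) {prog : List Bool → List Bool → DT}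
    (hs : Small prog) {n a : ℕ} (hn : 2 ≤ n) {σ₀ O₀ O : List Bool → Bool} (h0 : Bld prog σ₀ O₀)
    {Y : (Fin n → Bool) → Option (Fin n → Bool)} {κ : Om n (2 ^ a) → Bool}
    {P : Blk (fun s : Om n (2 ^ a) => ns s.1) fun s => qs s.1}
    (hO : Bld prog (sd n (2 ^ a) σ₀ Y κ P) O)
    {D : Om n (2 ^ a) → List (List (Cs n (2 ^ a) × Bool))}
    (hD : ∀ (s : Om n (2 ^ a)) Y e P, (acc prog s.1 (fun w => vl Y e P (cls n (2 ^ a) O₀ w)) ↔
      accD D P s Y e = true)) (s : Om n (2 ^ a)) :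
    O (key s.1) = xor (accD D P s Y fun s => O (key s.1)) (κ s) := by
  classical
  rw [hO (key s.1)]
  have h1 : sd n (2 ^ a) σ₀ Y κ P (key s.1) = κ s := by
    unfold sd
    rw [(hCLS n (2 ^ a) σ₀).2.1 s]
    rfl
  have h2 : (∃ s', key s.1 = key s' ∧ acc prog s' O) ↔
      accD D P s Y (fun s => O (key s.1)) = true := by
    rw [← hD s Y (fun s => O (key s.1)) P]
    have h3 : (∃ s', key s.1 = key s' ∧ acc prog s' O) ↔ acc prog s.1 O := by
      constructor
      · rintro ⟨s', hs', h⟩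
        have : s.1 = s' := by
          unfold key at hs'
          simpa using hs'
        rw [this]; exact h
      · intro h
        exact ⟨s.1, rfl, h⟩
    rw [h3]
    exact acc_congr hEVC hs s.2.2.le fun w hw => hLNK prog n (2 ^ a) σ₀ O₀ O Y κ P hs hn h0 hO w hw
  rw [h1, Bool.xor_comm]
  congr 1
  rcases hb : accD D P s Y (fun s => O (key s.1)) with _ | _
  · rw [decide_eq_false_iff_not, h2, hb]; simp
  · rw [decide_eq_true_iff, h2, hb]

/-- The seed of the stage allows to read all keys. -/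
theorem dec_all (hCLS : T_CLS) (hCOD : T_COD) {n a : ℕ} {σ₀ : List Bool → Bool}
    (hσ : ∀ s, Dec σ₀ s) {Y : (Fin n → Bool) → Option (Fin n → Bool)} {κ : Om n (2 ^ a) → Bool}
    {P : Blk (fun s : Om n (2 ^ a) => ns s.1) fun s => qs s.1}
    (hP : ∀ s : Om n (2 ^ a), DecA (qs s.1) (ns s.1) (κ s) (P s)) (s : List Bool) :
    Dec (sd n (2 ^ a) σ₀ Y κ P) s := by
  classical
  obtain ⟨-, h2, h3, h4⟩ := hCLS n (2 ^ a) σ₀
  by_cases hs : n ^ 2 ≤ s.length ∧ s.length < n ^ 2 ^ a
  · have h := hP ⟨s, hs⟩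
    unfold Dec
    have e1 : sd n (2 ^ a) σ₀ Y κ P (key s) = κ ⟨s, hs⟩ := by
      unfold sd
      have := h2 ⟨s, hs⟩
      simp only at this
      rw [this]; rfl
    have e2 : (fun i : Fin (ns s) => cpy (sd n (2 ^ a) σ₀ Y κ P) s i) = P ⟨s, hs⟩ := by
      funext i v
      unfold cpy sd
      have := h3 ⟨s, hs⟩ i v
      simp only at this
      rw [this]; rfl
    rw [e1, e2]
    exact h
  · have e1 : sd n (2 ^ a) σ₀ Y κ P (key s) = σ₀ (key s) := by
      unfold sd
      rcases h4 (key s) with ⟨u, v, h⟩ | ⟨s', h⟩ | ⟨s', i, v, h⟩ | h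
      · simp [key, bse] at h
      · exfalso
        have : s = s'.1 := by simpa [key] using h
        exact hs (this ▸ s'.2)
      · simp [key, blk] at h
      · rw [h]; rfl
    have e2 : ∀ i : ℕ, cpy (sd n (2 ^ a) σ₀ Y κ P) s i = cpy σ₀ s i := by
      intro i
      funext v
      unfold cpy sd
      rcases h4 (blk s i v.1 (List.ofFn v.2)) with ⟨u, v', h⟩ | ⟨s', h⟩ | ⟨s', i', v', h⟩ | h
      · simp [blk, bse] at h
      · simp [key, blk] at h
      · exfalso
        have h' : code s (List.ofFn v.2) (2 * i + v.1.toNat) =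
            code s'.1 (List.ofFn v'.2) (2 * i' + v'.1.toNat) := by
          simpa [blk] using h
        have : s = s'.1 := (hCOD.1 _ _ _ _ _ _ h').1
        exact hs (this ▸ s'.2)
      · rw [h]; rfl
    unfold Dec
    rw [e1]
    simp only [e2]
    exact hσ s

/-- At every short string only few rows matter. -/
theorem few (hLNK : T_LNK) {prog : List Bool → List Bool → DT}
    (hs : Small prog) {n a : ℕ} (hn : 2 ≤ n) {σ₀ O₀ O₁ : List Bool → Bool} (h0 : Bld prog σ₀ O₀)
    {Y : (Fin n → Bool) → (Fin n → Bool)} {κ : Om n (2 ^ a) → Bool}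
    {P : Blk (fun s : Om n (2 ^ a) => ns s.1) fun s => qs s.1}
    (h1 : Bld prog (sd n (2 ^ a) σ₀ (tot Y) κ P) O₁) {O : (Fin n → Bool) → List Bool → Bool}
    (hO : ∀ x, Bld prog (sd n (2 ^ a) σ₀ (sta (tot Y) x) κ P) (O x)) {M : ℕ} (hM : 1 ≤ M)
    (hK : ∀ s : Om n (2 ^ a), (univ.filter fun x => O x (key s.1) ≠ O₁ (key s.1)).card ≤ M)
    (w : List Bool) (hw : w.length ≤ n ^ 2 ^ a) : (univ.filter fun x => O x w ≠ O₁ w).card ≤ M := by
  classical
  have e1 := hLNK prog n (2 ^ a) σ₀ O₀ O₁ (tot Y) κ P hs hn h0 h1 w hw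
  have e2 := fun x => hLNK prog n (2 ^ a) σ₀ O₀ (O x) (sta (tot Y) x) κ P hs hn h0 (hO x) w hw
  rcases hc : cls n (2 ^ a) O₀ w with b | ⟨u, v⟩ | s | ⟨s, i, v⟩
  · have : (univ.filter fun x => O x w ≠ O₁ w) = ∅ := by
      refine filter_eq_empty_iff.2 fun x _ => ?_
      rw [e1, e2 x, hc]; simp [vl]
    rw [this]; simp
  · have : (univ.filter fun x => O x w ≠ O₁ w) ⊆ {u} := by
      intro x hx
      rw [mem_filter] at hx
      rw [mem_singleton]
      by_contra hne
      apply hx.2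
      rw [e1, e2 x, hc]
      simp [vl, sta, Function.update_of_ne (Ne.symm hne)]
    exact (card_le_card this).trans (by simpa using hM)
  · refine le_trans (card_le_card ?_) (hK s)
    intro x hx
    rw [mem_filter] at hx ⊢
    refine ⟨mem_univ _, ?_⟩
    have := hx.2
    rw [e1, e2 x, hc] at this
    exact this
  · have : (univ.filter fun x => O x w ≠ O₁ w) = ∅ := by
      refine filter_eq_empty_iff.2 fun x _ => ?_
      rw [e1, e2 x, hc]; simp [vl]
    rw [this]; simp

/-- The seed of the stage agrees with the old seed on very short strings. -/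
theorem short_eq (hCLS : T_CLS) (hCOD : T_COD) {n a : ℕ} (hn : 2 ≤ n) {σ₀ : List Bool → Bool}
    {Y : (Fin n → Bool) → Option (Fin n → Bool)} {κ : Om n (2 ^ a) → Bool}
    {P : Blk (fun s : Om n (2 ^ a) => ns s.1) fun s => qs s.1} (w : List Bool) (hw : w.length < n) :
    sd n (2 ^ a) σ₀ Y κ P w = σ₀ w := by
  unfold sd
  have hnn : n ≤ n ^ 2 := Nat.le_self_pow (by norm_num) n
  rcases (hCLS n (2 ^ a) σ₀).2.2.2 w with ⟨u, v, h⟩ | ⟨s', h⟩ | ⟨s', i, v, h⟩ | h
  · exfalso
    rw [h] at hw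
    simp [bse] at hw
    omega
  · exfalso
    have := s'.2.1
    rw [h] at hw
    simp [key] at hw
    omega
  · exfalso
    have := s'.2.1
    rw [h] at hw
    simp only [blk, List.length_cons, hCOD.2] at hw
    omega
  · rw [h]; rfl

theorem exists_ofFn {n : ℕ} {u : List Bool} (hu : u.length = n) :
    ∃ u' : Fin n → Bool, List.ofFn u' = u := by
  subst hu
  exact ⟨u.get, List.ofFn_get u⟩

/-- The zero input is not a member if every row has a zero. -/
theorem not_sig (hCLS : T_CLS) {prog : List Bool → List Bool → DT} {n a : ℕ}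
    {σ₀ O₁ : List Bool → Bool} {Y : (Fin n → Bool) → (Fin n → Bool)} {κ : Om n (2 ^ a) → Bool}
    {P : Blk (fun s : Om n (2 ^ a) => ns s.1) fun s => qs s.1}
    (h1 : Bld prog (sd n (2 ^ a) σ₀ (tot Y) κ P) O₁) : List.replicate n false ∉ sig O₁ := by
  rintro ⟨u, hu, h⟩
  rw [List.length_replicate] at hu
  obtain ⟨u', rfl⟩ := exists_ofFn hu
  have h2 := h (List.ofFn (Y u')) (by simp)
  rw [h1] at h2
  have h3 : sd n (2 ^ a) σ₀ (tot Y) κ P (bse (List.ofFn u') (List.ofFn (Y u'))) = false := by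
    unfold sd
    rw [(hCLS n (2 ^ a) σ₀).1 u' (Y u')]
    simp [vl, tot]
  rw [h3] at h2
  simp [bse, key] at h2

theorem mem_sig (hCLS : T_CLS) {prog : List Bool → List Bool → DT} {n a : ℕ}
    {σ₀ O : List Bool → Bool} {Y : (Fin n → Bool) → (Fin n → Bool)} {κ : Om n (2 ^ a) → Bool}
    {P : Blk (fun s : Om n (2 ^ a) => ns s.1) fun s => qs s.1} {x : Fin n → Bool}
    (h1 : Bld prog (sd n (2 ^ a) σ₀ (sta (tot Y) x) κ P) O) : List.replicate n false ∈ sig O := by
  refine ⟨List.ofFn x, by simp, fun v hv => ?_⟩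
  rw [List.length_replicate] at hv
  obtain ⟨v', rfl⟩ := exists_ofFn hv
  rw [h1]
  have h3 : sd n (2 ^ a) σ₀ (sta (tot Y) x) κ P (bse (List.ofFn x) (List.ofFn v')) = true := by
    unfold sd
    rw [(hCLS n (2 ^ a) σ₀).1 x v']
    simp [vl, sta]
  rw [h3]
  simp [bse, key]

/-- Correctness depends only on short strings. -/
theorem correct_congr (hPCG : T_PCG) (hBLU : T_BLU) {prog : List Bool → List Bool → DT}
    (hs : Small prog) {n L : ℕ} (hn : 2 * n + 1 ≤ L) {Q : QAlg} {m : ℕ} (hQ : Q.Short m)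
    (hm : m ≤ L) {σ σ' O O' : List Bool → Bool} (h : Bld prog σ O) (h' : Bld prog σ' O')
    (he : ∀ w : List Bool, w.length ≤ L → σ' w = σ w)
    (hc : Correct Q O' (sig O') (List.replicate n false)) :
    Correct Q O (sig O) (List.replicate n false) := by
  have h1 : ∀ w : List Bool, w.length ≤ L → O' w = O w := hBLU prog σ' σ O' O L hs h' h he
  have h2 : Q.prob O' = Q.prob O := hPCG Q O' O fun i w hw => h1 w ((hQ i w hw).trans hm)
  have h3 : List.replicate n false ∈ sig O' ↔ List.replicate n false ∈ sig O := by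
    unfold sig
    simp only [Set.mem_ofPred_eq, List.length_replicate]
    refine exists_congr fun u => and_congr_right fun hu => forall_congr' fun v => ?_
    refine imp_congr_right fun hv => ?_
    rw [h1 (bse u v) (by simp [bse]; omega)]
  unfold Correct at hc ⊢
  rw [← h3, ← h2]
  exact hc

theorem sys_mono {X Yv Ω : Type} {nn qq : Ω → ℕ} {D : Ω → List (List (Crd X Yv Ω nn qq × Bool))}
    {lev : Ω → ℕ} {t h S S' : ℕ} (hS : S ≤ S') (hD : Sys D lev t h S) : Sys D lev t h S' :=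
  ⟨fun s => (hD.len s).trans hS, hD.width, hD.low, hD.lt⟩

theorem t_stg (h1 : T_EXI) (h2 : T_BBV) (h3 : T_PCG) (h4 : T_BLD) (h5 : T_BLU) (h6 : T_EVC)
    (h7 : T_CLS) (h8 : T_COD) (h9 : T_LNK) (h10 : T_DNF) (h11 : T_LVL) (h12 : T_FIS)
    (h13 : T_NUM) (h14 : T_PAR) (h15 : T_L12) (h16 : T_EXB) (h17 : T_CER) : T_STG := by
  classical
  intro c C ε hε prog hs
  obtain ⟨a, ha⟩ := h14 c C ε hε
  filter_upwards [ha] with n hn Q hQ hT σ₀ hσ
  obtain ⟨t, R, S, M, w, r, k, K, hn2, hnc, hn1, hnt, hPar, hRr, htS, hKM, hM1, hMS, hbig, hR,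
    hw1, hL, hfin⟩ := hn
  haveI : Finite (Om n (2 ^ a)) := h12.2.1 n (2 ^ a)
  letI : Fintype (Om n (2 ^ a)) := Fintype.ofFinite _
  obtain ⟨hcard, hsum⟩ := h12.2.2 n (2 ^ a)
  obtain ⟨O₀, h0⟩ := h4 prog hs σ₀
  obtain ⟨D, hDS, hD⟩ := h10 prog n a t O₀ hs hn2 hnt
  have hX : Fintype.card (Fin n → Bool) = 2 ^ n := by simp
  have hlen : ∀ s : Om n (2 ^ a), n ≤ s.1.length := fun s =>
    (Nat.le_self_pow (by norm_num) n).trans s.2.1
  have hSys := sys_mono htS hDS
  have ht : t ≤ S := by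
    refine le_trans ?_ htS
    have := Nat.lt_two_pow_self (n := 2 * t + 1)
    omega
  have h2S : 2 ≤ S := by
    refine le_trans ?_ htS
    calc 2 = 2 ^ 1 := by norm_num
      _ ≤ 2 ^ (2 * t + 1) := Nat.pow_le_pow_right (by norm_num) (by omega)
  have hq : (1 : ℝ) / 4 ≥ 2 / 2 ^ n ^ 2 := by
    have : (8 : ℝ) ≤ 2 ^ n ^ 2 := by
      calc (8 : ℝ) = 2 ^ 3 := by norm_num
        _ ≤ 2 ^ n ^ 2 := pow_le_pow_right₀ (by norm_num) (by nlinarith)
    rw [ge_iff_le, div_le_div_iff₀ (by positivity) (by norm_num)]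
    linarith
  obtain ⟨Y, κ, P, hTyp, hDec⟩ := h1 (Fin n → Bool) (Fin n → Bool) (Om n (2 ^ a))
    (fun s => ns s.1) (fun s => qs s.1) D (fun s => lv n s.1) t a R S M r k K (2 ^ n - 1) hSys
    (by rw [hX]; exact hPar) le_rfl (by rw [hX]; exact Nat.one_le_two_pow) hRr h2S ht hKM hMS
    (by rw [hX]; exact (Nat.mul_le_mul_right _ hcard).trans hbig)
    (fun s => by simp only [qs]; omega)
    (fun s f hf => by
      have := h15 (VV (qs s.1)) S (5 * a + 1) w f hw1 hf
      refine this.trans ?_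
      have hc : (Fintype.card (VV (qs s.1)) : ℝ) = 2 * 2 ^ qs s.1 := by
        have : Fintype.card (VV (qs s.1)) = 2 * 2 ^ qs s.1 := by simp [VV]
        rw [this]; push_cast; rfl
      rw [hc]
      have h := hL (qs s.1) (by have := s.2.2; simp only [qs]; omega)
      linarith)
    ((Nat.mul_le_mul_left _ hcard).trans hR)
    (by
      refine le_trans (sum_le_sum fun s _ => ?_) (hsum.trans hq)
      refine le_trans ?_ (h13 s.1).1
      refine mul_le_mul_of_nonneg_left ?_ (by positivity)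
      refine div_le_div_of_nonneg_right ?_ (by positivity)
      rw [sub_add_cancel]
      exact pow_le_pow_right₀ (by norm_num) (hlen s))
    (by
      refine le_trans (sum_le_sum fun s _ => ?_) (hsum.trans hq)
      exact (h13 s.1).2)
  have hLvl := h17 (Fin n → Bool) (Fin n → Bool) (Om n (2 ^ a)) (fun s => ns s.1)
    (fun s => qs s.1) D (fun s => lv n s.1) t a S hSys P
  obtain ⟨-, hun, -, -⟩ := h16 (Fin n → Bool) (Fin n → Bool) (Om n (2 ^ a)) (accD D P)
    (fun s => lv n s.1) t a hLvl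
  obtain ⟨O₁, hO₁⟩ := h4 prog hs (sd n (2 ^ a) σ₀ (tot Y) κ P)
  have hOx := fun x => h4 prog hs (sd n (2 ^ a) σ₀ (sta (tot Y) x) κ P)
  choose O hO using hOx
  have hf1 := fixed h6 h7 h9 hs hn2 h0 hO₁ hD
  have hfx := fun x => fixed h6 h7 h9 hs hn2 h0 (hO x) hD
  have e1 : (fun s : Om n (2 ^ a) => O₁ (key s.1)) = el (accD D P) (tot Y) κ a :=
    hun (tot Y) κ _ hf1
  have ex1 : ∀ x, (fun s : Om n (2 ^ a) => O x (key s.1)) = el (accD D P) (sta (tot Y) x) κ a :=
    fun x => hun (sta (tot Y) x) κ _ (hfx x)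
  have etht : tht (accD D P) (tot Y) (fun s : Om n (2 ^ a) => O₁ (key s.1)) = κ := by
    funext s
    have h := hf1 s
    change xor (O₁ (key s.1)) (accD D P s (tot Y) fun s => O₁ (key s.1)) = κ s
    generalize (accD D P s (tot Y) fun s => O₁ (key s.1)) = b at h ⊢
    rw [h]
    cases b <;> cases κ s <;> rfl
  have hex : ∀ x, ex (accD D P) a (tot Y) (fun s : Om n (2 ^ a) => O₁ (key s.1)) x =
      fun s => O x (key s.1) := by
    intro x
    unfold ex
    rw [etht, ex1 x]
  have hK : ∀ s : Om n (2 ^ a), (univ.filter fun x => O x (key s.1) ≠ O₁ (key s.1)).card ≤ M := by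
    intro s
    have ht := hTyp s (hSys.lt s)
    rw [← e1] at ht
    refine le_trans (le_of_eq ?_) (ht.trans (hKM _ (hSys.lt s)))
    congr 1
    unfold dset
    refine filter_congr fun x _ => ?_
    unfold dlt
    rw [hex x]
    simp only []
    cases O x (key s.1) <;> cases O₁ (key s.1) <;> simp
  obtain ⟨x, hx⟩ := h2 (Fin n → Bool) Q O₁ O M fun i w' hw' =>
    few h9 hs hn2 h0 hO₁ hO hM1 hK w' ((hQ i w' hw').trans hnc)
  have hx3 : |Q.prob (O x) - Q.prob O₁| < 1 / 3 := by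
    refine lt_of_le_of_lt (hx.trans ?_) hfin
    rw [hX]
    push_cast
    refine mul_le_mul_of_nonneg_right ?_ (Real.sqrt_nonneg _)
    exact mul_le_mul_of_nonneg_left hT (by norm_num)
  by_cases hc : Correct Q O₁ (sig O₁) (List.replicate n false)
  · refine ⟨sd n (2 ^ a) σ₀ (sta (tot Y) x) κ P, n ^ 2 ^ a, fun w hw => short_eq h7 h8 hn2 w hw,
      dec_all h7 h8 hσ hDec, fun σ' O' he hB hcor => ?_⟩
    have hcx := correct_congr h3 h5 hs hn1 hQ hnc (hO x) hB he hcor
    have p1 := hc.2 (not_sig h7 hO₁)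
    have p2 := hcx.1 (mem_sig h7 (hO x))
    have p3 := (abs_lt.1 hx3).2
    linarith
  · exact ⟨sd n (2 ^ a) σ₀ (tot Y) κ P, n ^ 2 ^ a, fun w hw => short_eq h7 h8 hn2 w hw,
      dec_all h7 h8 hσ hDec, fun σ' O' he hB hcor =>
        hc (correct_congr h3 h5 hs hn1 hQ hnc hO₁ hB he hcor)⟩

end Pool.Agent.H6.NB.STG
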