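import Pool.Agent.H6.NB.Stmt

/-!
# The language in the second level of the hierarchy
-/

set_option autoImplicit false

namespace Pool.Agent.H6.NB

/-- For every `n` there is exactly one string `u` of length `n` such that the oracle contains all strings
`bse u v`, `|v| = n`. -/
def OneRow (O : List Bool → Bool) : Prop := ∀ n : ℕ, ∃ u : List Bool, u.length = n ∧
  (∀ v : List Bool, v.length = n → O (bse u v) = true) ∧
  ∀ u' : List Bool, u'.length = n → (∀ v : List Bool, v.length = n → O (bse u' v) = true) → u' = u

/-- `x` is a member iff there is `u` with first bit `1` such that for all `v` the oracle contains the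
string `bse u v`; `|u| = |v| = |x|`. -/
def usig (O : List Bool → Bool) : Set (List Bool) :=
  {x | ∃ u : List Bool, u.length = x.length ∧ u.head? = some true ∧
    ∀ v : List Bool, v.length = x.length → O (bse u v) = true}

end Pool.Agent.H6.NB
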