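import Pool.Agent.H6.NB.Targets
import Pool.Agent.H6.NB.Stmt2

/-!
# An oracle with NP in BQP and Σ₂ ∩ Π₂ not in BQP: the stronger form
-/

set_option autoImplicit false

namespace Pool.Agent.H6.NB

open Filter

/-- INI2: there is a good seed at the beginning. -/
def T_INI2 : Prop := ∃ σ : List Bool → Bool, (∀ s, Dec σ s) ∧ OneRow σ

/-- STG2: one stage of the construction. -/
def T_STG2 : Prop := ∀ (c C : ℕ) (ε : ℝ), 0 < ε → ∀ prog, Small prog → ∀ᶠ n : ℕ in atTop,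
  ∀ Q : QAlg, Q.Short (n ^ c + c) → (Q.T : ℝ) ≤ C * 2 ^ ((1 / 2 - ε) * n) →
  ∀ σ₀ : List Bool → Bool, (∀ s, Dec σ₀ s) → OneRow σ₀ → ∃ (σ : List Bool → Bool) (m : ℕ),
    (∀ w, w.length < n → σ w = σ₀ w) ∧ (∀ s, Dec σ s) ∧ OneRow σ ∧
    ∀ σ' O, (∀ w, w.length ≤ m → σ' w = σ w) → Bld prog σ' O →
      ¬ Correct Q O (usig O) (List.replicate n false)

/-- FIN2: the limit of the stages. -/
def T_FIN2 : Prop := ∀ prog, Small prog → ∀ Q : ℕ → List Bool → QAlg,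
  (∀ k, ∃ (c C : ℕ) (ε : ℝ), 0 < ε ∧ ∀ x, (Q k x).Short (x.length ^ c + c) ∧
    ((Q k x).T : ℝ) ≤ C * 2 ^ ((1 / 2 - ε) * x.length)) →
  ∃ σ O, Bld prog σ O ∧ (∀ s, Dec σ s) ∧ OneRow O ∧ ∀ k m, ∃ n ≥ m,
    ¬ Correct (Q k (List.replicate n false)) O (usig O) (List.replicate n false)

end Pool.Agent.H6.NB
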