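import Pool.Agent.H6.NB.STG
import Pool.Agent.H6.NB.Targets2

/-!
# One stage of the construction, stronger form
-/

set_option autoImplicit false

namespace Pool.Agent.H6.NB.STG2

open Pool.Agent.H6.NB Pool.Agent.H6.NB.STG Finset Filter

/-- The rows of other lengths are unchanged, the rows of length `n` are those of the table. -/
theorem sd_bse (hCLS : T_CLS) {n a : ℕ} {σ₀ : List Bool → Bool}
    {Y : (Fin n → Bool) → Option (Fin n → Bool)} {κ : Om n (2 ^ a) → Bool}
    {P : Blk (fun s : Om n (2 ^ a) => ns s.1) fun s => qs s.1} {u v : List Bool}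
    (huv : u.length = v.length) (hu : u.length ≠ n) :
    sd n (2 ^ a) σ₀ Y κ P (bse u v) = σ₀ (bse u v) := by
  unfold sd
  rcases (hCLS n (2 ^ a) σ₀).2.2.2 (bse u v) with ⟨u', v', h⟩ | ⟨s', h⟩ | ⟨s', i, v', h⟩ | h
  · exfalso
    have := congrArg List.length h
    simp [bse] at this
    omega
  · simp [bse, key] at h
  · simp [bse, blk] at h
  · rw [h]; rfl

theorem sd_bse_n (hCLS : T_CLS) {n a : ℕ} {σ₀ : List Bool → Bool}
    {Y : (Fin n → Bool) → (Fin n → Bool)} {κ : Om n (2 ^ a) → Bool}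
    {P : Blk (fun s : Om n (2 ^ a) => ns s.1) fun s => qs s.1} {x : Fin n → Bool}
    (u v : Fin n → Bool) :
    sd n (2 ^ a) σ₀ (sta (tot Y) x) κ P (bse (List.ofFn u) (List.ofFn v)) =
      !decide (u ≠ x ∧ Y u = v) := by
  unfold sd
  rw [(hCLS n (2 ^ a) σ₀).1 u v]
  by_cases h : u = x
  · subst h
    simp [vl, sta]
  · simp [vl, sta, tot, Function.update_of_ne h, h]

theorem row_n (hCLS : T_CLS) {n a : ℕ} {σ₀ : List Bool → Bool}
    {Y : (Fin n → Bool) → (Fin n → Bool)} {κ : Om n (2 ^ a) → Bool}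
    {P : Blk (fun s : Om n (2 ^ a) => ns s.1) fun s => qs s.1} {x : Fin n → Bool} (u : List Bool)
    (hu : u.length = n) : (∀ v : List Bool, v.length = n →
      sd n (2 ^ a) σ₀ (sta (tot Y) x) κ P (bse u v) = true) ↔ u = List.ofFn x := by
  obtain ⟨u', rfl⟩ := exists_ofFn hu
  constructor
  · intro h
    by_contra hne
    have h1 := h (List.ofFn (Y u')) (by simp)
    rw [sd_bse_n hCLS] at h1
    have : u' ≠ x := fun e => hne (by rw [e])
    simp [this] at h1
  · intro h v hv
    obtain ⟨v', rfl⟩ := exists_ofFn hv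
    have : u' = x := List.ofFn_injective h
    rw [sd_bse_n hCLS, this]
    simp

theorem oneRow_sd (hCLS : T_CLS) {n a : ℕ} {σ₀ : List Bool → Bool} (h0 : OneRow σ₀)
    {Y : (Fin n → Bool) → (Fin n → Bool)} {κ : Om n (2 ^ a) → Bool}
    {P : Blk (fun s : Om n (2 ^ a) => ns s.1) fun s => qs s.1} (x : Fin n → Bool) :
    OneRow (sd n (2 ^ a) σ₀ (sta (tot Y) x) κ P) := by
  intro n'
  by_cases hn : n' = n
  · subst hn
    refine ⟨List.ofFn x, by simp, (row_n hCLS _ (by simp)).2 rfl, fun u' hu' h => ?_⟩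
    exact (row_n hCLS _ hu').1 h
  · obtain ⟨u, hu, h1, h2⟩ := h0 n'
    refine ⟨u, hu, fun v hv => ?_, fun u' hu' h => h2 u' hu' fun v hv => ?_⟩
    · rw [sd_bse hCLS (by rw [hu, hv]) (by rw [hu]; exact hn)]
      exact h1 v hv
    · have e := sd_bse hCLS (a := a) (σ₀ := σ₀) (Y := sta (tot Y) x) (κ := κ) (P := P)
        (u := u') (v := v) (n := n) (by rw [hu', hv]) (by rw [hu']; exact hn)
      rw [← e]
      exact h v hv

/-- The value of the oracle at the table. -/
theorem bld_bse {prog : List Bool → List Bool → DT} {σ O : List Bool → Bool} (h : Bld prog σ O)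
    (u v : List Bool) : O (bse u v) = σ (bse u v) := by
  rw [h]
  simp [bse, key]

theorem usig_iff (hCLS : T_CLS) {prog : List Bool → List Bool → DT} {n a : ℕ}
    {σ₀ O : List Bool → Bool} {Y : (Fin n → Bool) → (Fin n → Bool)} {κ : Om n (2 ^ a) → Bool}
    {P : Blk (fun s : Om n (2 ^ a) => ns s.1) fun s => qs s.1} {x : Fin n → Bool}
    (h1 : Bld prog (sd n (2 ^ a) σ₀ (sta (tot Y) x) κ P) O) :
    List.replicate n false ∈ usig O ↔ (List.ofFn x).head? = some true := by
  unfold usig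
  simp only [Set.mem_ofPred_eq, List.length_replicate]
  constructor
  · rintro ⟨u, hu, hh, h⟩
    have : u = List.ofFn x := (row_n hCLS (σ₀ := σ₀) (Y := Y) (κ := κ) (P := P) u hu).1
      fun v hv => by rw [← bld_bse h1]; exact h v hv
    rw [← this]; exact hh
  · intro h
    refine ⟨List.ofFn x, by simp, h, fun v hv => ?_⟩
    rw [bld_bse h1]
    exact (row_n hCLS _ (by simp)).2 rfl v hv

/-- Correctness depends only on short strings. -/
theorem correct_congr (hPCG : T_PCG) (hBLU : T_BLU) {prog : List Bool → List Bool → DT}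
    (hs : Small prog) {n L : ℕ} (hn : 2 * n + 1 ≤ L) {Q : QAlg} {m : ℕ} (hQ : Q.Short m)
    (hm : m ≤ L) {σ σ' O O' : List Bool → Bool} (h : Bld prog σ O) (h' : Bld prog σ' O')
    (he : ∀ w : List Bool, w.length ≤ L → σ' w = σ w)
    (hc : Correct Q O' (usig O') (List.replicate n false)) :
    Correct Q O (usig O) (List.replicate n false) := by
  have h1 : ∀ w : List Bool, w.length ≤ L → O' w = O w := hBLU prog σ' σ O' O L hs h' h he
  have h2 : Q.prob O' = Q.prob O := hPCG Q O' O fun i w hw => h1 w ((hQ i w hw).trans hm)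
  have h3 : List.replicate n false ∈ usig O' ↔ List.replicate n false ∈ usig O := by
    unfold usig
    simp only [Set.mem_ofPred_eq, List.length_replicate]
    refine exists_congr fun u => and_congr_right fun hu => and_congr_right fun _ =>
      forall_congr' fun v => ?_
    refine imp_congr_right fun hv => ?_
    rw [h1 (bse u v) (by simp [bse]; omega)]
  unfold Correct at hc ⊢
  rw [← h3, ← h2]
  exact hc

theorem t_stg2 (h1 : T_EXI) (h2 : T_BBV) (h3 : T_PCG) (h4 : T_BLD) (h5 : T_BLU) (h6 : T_EVC)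
    (h7 : T_CLS) (h8 : T_COD) (h9 : T_LNK) (h10 : T_DNF) (h12 : T_FIS)
    (h13 : T_NUM) (h14 : T_PAR) (h15 : T_L12) (h16 : T_EXB) (h17 : T_CER) : T_STG2 := by
  classical
  intro c C ε hε prog hs
  obtain ⟨a, ha⟩ := h14 c (4 * C) ε hε
  filter_upwards [ha] with n hn Q hQ hT σ₀ hσ hrow
  obtain ⟨t, R, S, M, w, r, k, K, hn2, hnc, hn1, hnt, hPar, hRr, htS, hKM, hM1, hMS, hbig, hR,
    hw1, hL, hfin⟩ := hn
  have : Finite (Om n (2 ^ a)) := h12.2.1 n (2 ^ a)
  let inst : Fintype (Om n (2 ^ a)) := Fintype.ofFinite _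
  obtain ⟨hcard, hsum⟩ := h12.2.2 n (2 ^ a)
  obtain ⟨O₀, h0⟩ := h4 prog hs σ₀
  obtain ⟨D, hDS, hD⟩ := h10 prog n a t O₀ hs hn2 hnt
  have hX : Fintype.card (Fin n → Bool) = 2 ^ n := by simp
  have hlen : ∀ s : Om n (2 ^ a), n ≤ s.1.length := fun s =>
    (Nat.le_self_pow (by norm_num) n).trans s.2.1
  have hSys := sys_mono htS hDS
  have ht : t ≤ S := by
    refine le_trans ?_ htS
    have := Nat.lt_two_pow_self (n := 2 * t + 1)
    omega
  have h2S : 2 ≤ S := by
    refine le_trans ?_ htS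
    calc 2 = 2 ^ 1 := by norm_num
      _ ≤ 2 ^ (2 * t + 1) := Nat.pow_le_pow_right (by norm_num) (by omega)
  have hq : (1 : ℝ) / 4 ≥ 2 / 2 ^ n ^ 2 := by
    have : (8 : ℝ) ≤ 2 ^ n ^ 2 := by
      calc (8 : ℝ) = 2 ^ 3 := by norm_num
        _ ≤ 2 ^ n ^ 2 := pow_le_pow_right₀ (by norm_num) (by nlinarith)
    rw [ge_iff_le, div_le_div_iff₀ (by positivity) (by norm_num)]
    linarith
  obtain ⟨Y, κ, P, hTyp, hDec⟩ := h1 (Fin n → Bool) (Fin n → Bool) (Om n (2 ^ a))
    (fun s => ns s.1) (fun s => qs s.1) D (fun s => lv n s.1) t a R S M r k K (2 ^ n - 1) hSys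
    (by rw [hX]; exact hPar) le_rfl (by rw [hX]; exact Nat.one_le_two_pow) hRr h2S ht hKM hMS
    (by rw [hX]; exact (Nat.mul_le_mul_right _ hcard).trans hbig)
    (fun s => by simp only [qs]; omega)
    (fun s f hf => by
      have := h15 (VV (qs s.1)) S (5 * a + 1) w f hw1 hf
      refine this.trans ?_
      have hc : (Fintype.card (VV (qs s.1)) : ℝ) = 2 * 2 ^ qs s.1 := by
        have : Fintype.card (VV (qs s.1)) = 2 * 2 ^ qs s.1 := by simp [VV]
        rw [this]; push_cast; rfl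
      rw [hc]
      have h := hL (qs s.1) (by have := s.2.2; simp only [qs]; omega)
      linarith)
    ((Nat.mul_le_mul_left _ hcard).trans hR)
    (by
      refine le_trans (sum_le_sum fun s _ => ?_) (hsum.trans hq)
      refine le_trans ?_ (h13 s.1).1
      refine mul_le_mul_of_nonneg_left ?_ (by positivity)
      refine div_le_div_of_nonneg_right ?_ (by positivity)
      rw [sub_add_cancel]
      exact pow_le_pow_right₀ (by norm_num) (hlen s))
    (by
      refine le_trans (sum_le_sum fun s _ => ?_) (hsum.trans hq)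
      exact (h13 s.1).2)
  have hLvl := h17 (Fin n → Bool) (Fin n → Bool) (Om n (2 ^ a)) (fun s => ns s.1)
    (fun s => qs s.1) D (fun s => lv n s.1) t a S hSys P
  obtain ⟨-, hun, -, -⟩ := h16 (Fin n → Bool) (Fin n → Bool) (Om n (2 ^ a)) (accD D P)
    (fun s => lv n s.1) t a hLvl
  obtain ⟨O₁, hO₁⟩ := h4 prog hs (sd n (2 ^ a) σ₀ (tot Y) κ P)
  have hOx := fun x => h4 prog hs (sd n (2 ^ a) σ₀ (sta (tot Y) x) κ P)
  choose O hO using hOx
  have hf1 := fixed h6 h7 h9 hs hn2 h0 hO₁ hD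
  have hfx := fun x => fixed h6 h7 h9 hs hn2 h0 (hO x) hD
  have e1 : (fun s : Om n (2 ^ a) => O₁ (key s.1)) = el (accD D P) (tot Y) κ a :=
    hun (tot Y) κ _ hf1
  have ex1 : ∀ x, (fun s : Om n (2 ^ a) => O x (key s.1)) = el (accD D P) (sta (tot Y) x) κ a :=
    fun x => hun (sta (tot Y) x) κ _ (hfx x)
  have etht : tht (accD D P) (tot Y) (fun s : Om n (2 ^ a) => O₁ (key s.1)) = κ := by
    funext s
    have h := hf1 s
    change xor (O₁ (key s.1)) (accD D P s (tot Y) fun s => O₁ (key s.1)) = κ s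
    generalize (accD D P s (tot Y) fun s => O₁ (key s.1)) = b at h ⊢
    rw [h]
    cases b <;> cases κ s <;> rfl
  have hex : ∀ x, ex (accD D P) a (tot Y) (fun s : Om n (2 ^ a) => O₁ (key s.1)) x =
      fun s => O x (key s.1) := by
    intro x
    unfold ex
    rw [etht, ex1 x]
  have hK : ∀ s : Om n (2 ^ a), (univ.filter fun x => O x (key s.1) ≠ O₁ (key s.1)).card ≤ M := by
    intro s
    have ht := hTyp s (hSys.lt s)
    rw [← e1] at ht
    refine le_trans (le_of_eq ?_) (ht.trans (hKM _ (hSys.lt s)))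
    congr 1
    unfold dset
    refine filter_congr fun x _ => ?_
    unfold dlt
    rw [hex x]
    simp only []
    cases O x (key s.1) <;> cases O₁ (key s.1) <;> simp
  -- a good row with a prescribed first bit
  have hgood : ∀ b : Bool, ∃ x : Fin n → Bool, (List.ofFn x).head? = some b ∧
      |Q.prob (O x) - Q.prob O₁| < 1 / 6 := by
    intro b
    obtain ⟨m, hm⟩ : ∃ m, n = m + 1 := ⟨n - 1, by omega⟩
    let f : (Fin m → Bool) → (Fin n → Bool) := fun y i =>
      (Fin.cons b y : Fin (m + 1) → Bool) (Fin.cast hm i)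
    have hf : Function.Injective f := by
      intro y y' h
      have h' : (Fin.cons b y : Fin (m + 1) → Bool) = Fin.cons b y' := by
        funext i
        have := congrFun h (Fin.cast hm.symm i)
        simpa [f] using this
      exact (Fin.cons_injective2 h').2
    have hhead : ∀ y, (List.ofFn (f y)).head? = some b := by
      intro y
      subst hm
      simp [f]
    obtain ⟨y, hy⟩ := h2 (Fin m → Bool) Q O₁ (fun y => O (f y)) M fun i w' hw' => by
      refine le_trans ?_ (few h9 hs hn2 h0 hO₁ hO hM1 hK w' ((hQ i w' hw').trans hnc))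
      rw [← card_map ⟨f, hf⟩]
      refine card_le_card fun x hx => ?_
      rw [Finset.mem_map] at hx
      obtain ⟨y, hy, rfl⟩ := hx
      rw [mem_filter] at hy ⊢
      exact ⟨mem_univ _, hy.2⟩
    refine ⟨f y, hhead y, lt_of_le_of_lt hy ?_⟩
    have hcm : (Fintype.card (Fin m → Bool) : ℝ) = 2 ^ m := by simp
    rw [hcm]
    have hs2 : √((M : ℝ) / 2 ^ m) ≤ 2 * √((M : ℝ) / 2 ^ n) := by
      rw [show (M : ℝ) / 2 ^ m = 2 * ((M : ℝ) / 2 ^ n) by rw [hm, pow_succ]; field_simp,
        Real.sqrt_mul (by norm_num)]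
      refine mul_le_mul_of_nonneg_right ?_ (Real.sqrt_nonneg _)
      rw [Real.sqrt_le_left (by norm_num)]
      norm_num
    have hT' : 4 * (Q.T : ℝ) * √((M : ℝ) / 2 ^ m) ≤
        4 * (C * 2 ^ ((1 / 2 - ε) * n)) * (2 * √((M : ℝ) / 2 ^ n)) :=
      mul_le_mul (mul_le_mul_of_nonneg_left hT (by norm_num)) hs2 (Real.sqrt_nonneg _)
        (by positivity)
    refine lt_of_le_of_lt hT' ?_
    push_cast at hfin
    nlinarith [hfin]
  obtain ⟨x₁, hb1, hx1⟩ := hgood true
  obtain ⟨x₀, hb0, hx0⟩ := hgood false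
  by_cases hc : Correct Q (O x₁) (usig (O x₁)) (List.replicate n false)
  · refine ⟨sd n (2 ^ a) σ₀ (sta (tot Y) x₀) κ P, n ^ 2 ^ a, fun w hw => short_eq h7 h8 hn2 w hw,
      dec_all h7 h8 hσ hDec, oneRow_sd h7 hrow x₀, fun σ' O' he hB hcor => ?_⟩
    have hcx := correct_congr h3 h5 hs hn1 hQ hnc (hO x₀) hB he hcor
    have p1 := hc.1 ((usig_iff h7 (hO x₁)).2 hb1)
    have p0 := hcx.2 (fun h => by
      have := (usig_iff h7 (hO x₀)).1 h
      rw [hb0] at this
      simp at this)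
    have q1 := abs_lt.1 hx1
    have q0 := abs_lt.1 hx0
    linarith [q1.1, q1.2, q0.1, q0.2]
  · exact ⟨sd n (2 ^ a) σ₀ (sta (tot Y) x₁) κ P, n ^ 2 ^ a, fun w hw => short_eq h7 h8 hn2 w hw,
      dec_all h7 h8 hσ hDec, oneRow_sd h7 hrow x₁, fun σ' O' he hB hcor =>
        hc (correct_congr h3 h5 hs hn1 hQ hnc (hO x₁) hB he hcor)⟩

end Pool.Agent.H6.NB.STG2
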