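import Pool.Agent.H19.NB.Small
import Pool.Agent.H24.NB.PHB
import Pool.Agent.H24.NB.PHU
import Pool.Agent.H3.NB.CLS
import Pool.Agent.H3.NB.FIN
import Pool.Agent.H3.NB.FIN2
import Pool.Agent.H3.NB.FIS
import Pool.Agent.H3.NB.FOR
import Pool.Agent.H3.NB.L12
import Pool.Agent.H3.NB.LNK
import Pool.Agent.H3.NB.YES
import Pool.Agent.H33.NB.INI2
import Pool.Agent.H35.NB.EXI
import Pool.Agent.H35.NB.PAR
import Pool.Agent.H35.NB.STA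
import Pool.Agent.H36.NB.DIR
import Pool.Agent.H36.NB.FOU
import Pool.Agent.H36.NB.RST
import Pool.Agent.H36.NB.STE
import Pool.Agent.H37.NB.DCC
import Pool.Agent.H37.NB.INI
import Pool.Agent.H37.NB.PTH
import Pool.Agent.H48.NB.DIF
import Pool.Agent.H48.NB.MUP
import Pool.Agent.H48.NB.PHE
import Pool.Agent.H48.NB.WLK
import Pool.Agent.H54.NB.All
import Pool.Agent.H57.NB.DCP
import Pool.Agent.H57.NB.DTL
import Pool.Agent.H57.NB.NUM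
import Pool.Agent.H57.NB.PAA
import Pool.Agent.H58.NB.BAS
import Pool.Agent.H58.NB.IDE
import Pool.Agent.H58.NB.ONE
import Pool.Agent.H58.NB.STC
import Pool.Agent.H58.NB.STJ
import Pool.Agent.H59.NB.BBV
import Pool.Agent.H59.NB.HTR
import Pool.Agent.H6.NB.STG
import Pool.Agent.H6.NB.STG2
import Pool.Agent.H62.NB.Hyb
import Pool.Agent.H62.NB.Small
import Pool.Agent.H73.NB.CSH
import Pool.Agent.H73.NB.PHL
import Pool.Agent.H86.NB.CBD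
import Pool.Agent.H86.NB.CKT
import Pool.Agent.H86.NB.DNF
import Pool.Agent.H86.NB.UNI
import Pool.Agent.H97.NB.CER
import Pool.Agent.H97.NB.CLA
import Pool.Agent.H97.NB.CLB

/-!
# Assembly of the modules
-/

set_option autoImplicit false

namespace Pool.Agent.H6.NB

theorem pf_TUR : T_TUR := Pool.Agent.H62.NB.tur 

theorem pf_CHO : T_CHO := Pool.Agent.H62.NB.cho 

theorem pf_FIB : T_FIB := Pool.Agent.H62.NB.fib 

theorem pf_BAS : T_BAS := Pool.Agent.H58.NB.t_bas pf_TUR pf_CHO pf_FIB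

theorem pf_BBV : T_BBV := Pool.Agent.H59.NB.BBV.t_bbv 

theorem pf_EVC : T_EVC := Pool.Agent.H54.NB.t_evc 

theorem pf_BLD : T_BLD := Pool.Agent.H54.NB.t_bld pf_EVC

theorem pf_BLU : T_BLU := Pool.Agent.H54.NB.t_blu pf_EVC

theorem pf_CLB : T_CLB := Pool.Agent.H97.NB.CLB.t_clb 

theorem pf_CLA : T_CLA := Pool.Agent.H97.NB.CLA.t_cla pf_CLB

theorem pf_LOC : T_LOC := Pool.Agent.H54.NB.t_loc 

theorem pf_EXB : T_EXB := Pool.Agent.H54.NB.t_exb pf_LOC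

theorem pf_CER : T_CER := Pool.Agent.H97.NB.CER.t_cer 

theorem pf_CBD : T_CBD := Pool.Agent.H86.NB.CBD.t_cbd pf_CLB pf_CLA pf_EXB pf_CER

theorem pf_CHV : T_CHV := Pool.Agent.H54.NB.t_chv pf_EXB

theorem pf_CKT : T_CKT := Pool.Agent.H86.NB.CKT.t_ckt 

theorem pf_CLR : T_CLR := Pool.Agent.H19.NB.t_clr 

theorem pf_COD : T_COD := Pool.Agent.H19.NB.t_cod 

theorem pf_CLS : T_CLS := Pool.Agent.H3.NB.CLS.t_cls pf_COD

theorem pf_CPY : T_CPY := Pool.Agent.H62.NB.cpy 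

theorem pf_DIR : T_DIR := Pool.Agent.H36.NB.DIR.t_dir 

theorem pf_WLK : T_WLK := Pool.Agent.H48.NB.WLK.t_wlk pf_DIR

theorem pf_MUP : T_MUP := Pool.Agent.H48.NB.MUP.t_mup pf_WLK

theorem pf_CSH : T_CSH := Pool.Agent.H73.NB.t_csh pf_WLK pf_DIR pf_MUP

theorem pf_DCC : T_DCC := Pool.Agent.H37.NB.DCC.t_dcc pf_COD

theorem pf_PHE : T_PHE := Pool.Agent.H48.NB.PHE.t_phe pf_WLK pf_DIR pf_MUP pf_CSH

theorem pf_PHB : T_PHB := Pool.Agent.H24.NB.PHB.t_phb 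

theorem pf_PHL : T_PHL := Pool.Agent.H73.NB.t_phl pf_PHE pf_MUP pf_PHB

theorem pf_PHU : T_PHU := Pool.Agent.H24.NB.PHU.t_phu 

theorem pf_DCP : T_DCP := Pool.Agent.H57.NB.DCP.t_dcp pf_PHL pf_PHU pf_MUP

theorem pf_FOU : T_FOU := Pool.Agent.H36.NB.FOU.t_fou 

theorem pf_RST : T_RST := Pool.Agent.H36.NB.RST.t_rst 

theorem pf_STE : T_STE := Pool.Agent.H36.NB.STE.t_ste pf_FOU pf_RST pf_DIR

theorem pf_DIF : T_DIF := Pool.Agent.H48.NB.DIF.t_dif pf_STE pf_WLK pf_MUP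

theorem pf_PTH : T_PTH := Pool.Agent.H37.NB.PTH.t_pth 

theorem pf_FIS : T_FIS := Pool.Agent.H3.NB.FIS.t_fis 

theorem pf_LVL : T_LVL := Pool.Agent.H19.NB.t_lvl 

theorem pf_DNF : T_DNF := Pool.Agent.H86.NB.DNF.t_dnf pf_PTH pf_FIS pf_CLS pf_LVL pf_COD

theorem pf_DTL : T_DTL := Pool.Agent.H57.NB.DTL.t_dtl 

theorem pf_STA : T_STA := Pool.Agent.H35.NB.t_sta pf_TUR pf_CHO pf_FIB pf_EXB pf_LOC

theorem pf_STB : T_STB := Pool.Agent.H54.NB.t_stb pf_EXB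

theorem pf_SWA : T_SWA := Pool.Agent.H54.NB.t_swa 

theorem pf_STC : T_STC := Pool.Agent.H58.NB.t_stc pf_SWA pf_EXB pf_LOC

theorem pf_STJ : T_STJ := Pool.Agent.H58.NB.t_stj pf_BAS pf_STA pf_STB pf_STC pf_EXB pf_LOC

theorem pf_ONE : T_ONE := Pool.Agent.H58.NB.t_one pf_EXB

theorem pf_IDE : T_IDE := Pool.Agent.H58.NB.t_ide pf_STJ pf_ONE pf_EXB

theorem pf_HYB : T_HYB := Pool.Agent.H62.NB.hyb 

theorem pf_EXI : T_EXI := Pool.Agent.H35.NB.t_exi pf_IDE pf_CER pf_HYB pf_CPY pf_CHV pf_CBD pf_CLR pf_DIF pf_MUP pf_DCP pf_EXB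

theorem pf_PCG : T_PCG := Pool.Agent.H19.NB.t_pcg 

theorem pf_LNK : T_LNK := Pool.Agent.H3.NB.LNK.t_lnk pf_BLU pf_EVC pf_CLS pf_COD

theorem pf_NUM : T_NUM := Pool.Agent.H57.NB.NUM.t_num 

theorem pf_PAA : T_PAA := Pool.Agent.H57.NB.PAA.t_paa 

theorem pf_PAR : T_PAR := Pool.Agent.H35.NB.t_par pf_PAA

theorem pf_HTR : T_HTR := Pool.Agent.H59.NB.HTR.t_htr 

theorem pf_L12 : T_L12 := Pool.Agent.H3.NB.L12.t_l12 pf_CKT pf_DTL pf_HTR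

theorem pf_STG : T_STG := Pool.Agent.H6.NB.STG.t_stg pf_EXI pf_BBV pf_PCG pf_BLD pf_BLU pf_EVC pf_CLS pf_COD pf_LNK pf_DNF pf_LVL pf_FIS pf_NUM pf_PAR pf_L12 pf_EXB pf_CER

theorem pf_INI : T_INI := Pool.Agent.H37.NB.INI.t_ini 

theorem pf_FIN : T_FIN := Pool.Agent.H3.NB.FIN.t_fin pf_STG pf_BLD pf_BLU pf_DCC pf_INI

theorem pf_STG2 : T_STG2 := Pool.Agent.H6.NB.STG2.t_stg2 pf_EXI pf_BBV pf_PCG pf_BLD pf_BLU pf_EVC pf_CLS pf_COD pf_LNK pf_DNF pf_FIS pf_NUM pf_PAR pf_L12 pf_EXB pf_CER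

theorem pf_INI2 : T_INI2 := Pool.Agent.H33.NB.INI2.t_ini2 pf_INI

theorem pf_FIN2 : T_FIN2 := Pool.Agent.H3.NB.FIN2.t_fin2 pf_STG2 pf_BLD pf_BLU pf_DCC pf_INI2

theorem pf_FOR : T_FOR := Pool.Agent.H3.NB.FOR.t_for 

theorem pf_UNI : T_UNI := Pool.Agent.H86.NB.UNI.t_uni pf_COD

theorem pf_YES : T_YES := Pool.Agent.H3.NB.YES.t_yes pf_FOR pf_PHB

end Pool.Agent.H6.NB
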