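import Pool.Agent.H6.NB.Stmt
import Pool.Agent.H68.AC.Defs

/-!
# An oracle with NP in BQP and Σ₂ not in BQP: definitions for the proof
-/

set_option autoImplicit false

namespace Pool.Agent.H6.NB

open Finset

/-! ## Part A: the ideal world

`X` = rows of the table, `Yv` = columns, `Ω` = instances. A configuration is a pair `(Y, e)`: the row `x`
has its only zero in column `y` iff `Y x = some y` (`none`: no zero), `e s` is the encrypted answer of the
instance `s`. `acc s Y e` is the answer of the instance `s`. -/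

/-- Functions of a configuration. -/
abbrev Fn (X Yv Ω : Type) : Type := (X → Option Yv) → (Ω → Bool) → Bool

/-- A function which is true has a certificate of size `t` which uses only encrypted answers of levels
below `j`. -/
def Cert {X Yv Ω : Type} (lev : Ω → ℕ) (t j : ℕ) (G : Fn X Yv Ω) : Prop :=
  ∀ Y e, G Y e = true → ∃ (A : Finset (X × Yv)) (B : Finset Ω), A.card + B.card ≤ t ∧
    (∀ s ∈ B, lev s < j) ∧ ∀ Y' e', (∀ p ∈ A, (Y' p.1 = some p.2 ↔ Y p.1 = some p.2)) →
      (∀ s ∈ B, e' s = e s) → G Y' e' = true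

/-- The encrypted answers computed from the keys `θ` (the first `k` levels). -/
def el {X Yv Ω : Type} (acc : Ω → Fn X Yv Ω) (Y : X → Option Yv) (θ : Ω → Bool) : ℕ → Ω → Bool
  | 0 => fun _ => false
  | k + 1 => fun s => xor (acc s Y (el acc Y θ k)) (θ s)

/-- The keys computed from the encrypted answers. -/
def tht {X Yv Ω : Type} (acc : Ω → Fn X Yv Ω) (Y : X → Option Yv) (e : Ω → Bool) : Ω → Bool :=
  fun s => xor (e s) (acc s Y e)

section

variable {X Yv Ω : Type} [DecidableEq X]

/-- Remove the zero of row `x`. -/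
def sta (Y : X → Option Yv) (x : X) : X → Option Yv := Function.update Y x none

/-- The encrypted answers after the removal of the zero of row `x`, the keys being fixed. -/
def ex (acc : Ω → Fn X Yv Ω) (h : ℕ) (Y : X → Option Yv) (e : Ω → Bool) (x : X) : Ω → Bool :=
  el acc (sta Y x) (tht acc Y e) h

/-- The encrypted answer of `s` changes when the zero of row `x` is removed. -/
def dlt (acc : Ω → Fn X Yv Ω) (h : ℕ) (Y : X → Option Yv) (e : Ω → Bool) (x : X) (s : Ω) : Bool :=
  xor (e s) (ex acc h Y e x s)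

/-- The hypotheses on the levels: there are `h` levels. -/
structure Lvl (acc : Ω → Fn X Yv Ω) (lev : Ω → ℕ) (t h : ℕ) : Prop where
  cert : ∀ s, Cert lev t (lev s) (acc s)
  lt : ∀ s, lev s < h

variable [Fintype X]

/-- The rows whose removal changes the answer of `s`. -/
def dset (acc : Ω → Fn X Yv Ω) (h : ℕ) (Y : X → Option Yv) (e : Ω → Bool) (s : Ω) : Finset X :=
  univ.filter fun x => dlt acc h Y e x s = true

/-- All instances of levels below `j` are typical. -/
def Typ (acc : Ω → Fn X Yv Ω) (lev : Ω → ℕ) (h : ℕ) (K : ℕ → ℕ) (j : ℕ) (Y : X → Option Yv)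
    (e : Ω → Bool) : Prop := ∀ s, lev s < j → (dset acc h Y e s).card ≤ K (lev s)

/-- The rows whose removal changes `G` from false to true. -/
def upx (acc : Ω → Fn X Yv Ω) (h : ℕ) (G : Fn X Yv Ω) (Y : X → Option Yv) (e : Ω → Bool) : Finset X :=
  univ.filter fun x => G Y e = false ∧ G (sta Y x) (ex acc h Y e x) = true

/-- Flip the answers of level `j` according to the rows in `Z`. -/
def fl (acc : Ω → Fn X Yv Ω) (lev : Ω → ℕ) (h : ℕ) (Y : X → Option Yv) (j : ℕ) (e : Ω → Bool)
    (Z : Finset X) : Ω → Bool := fun s =>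
  if lev s = j then xor (e s) (decide (Odd (Z.filter fun x => dlt acc h Y e x s = true).card)) else e s

/-- The value of `G` after the removal of the zero of row `x`, the answers of level `j` and higher being
unchanged. -/
def hx (acc : Ω → Fn X Yv Ω) (lev : Ω → ℕ) (h : ℕ) (G : Fn X Yv Ω) (j : ℕ) (Y : X → Option Yv)
    (e : Ω → Bool) (x : X) : Bool :=
  G (sta Y x) fun s => if lev s < j then ex acc h Y e x s else e s

/-- The rows for which `hx` is true although `G` is false. -/
def uph (acc : Ω → Fn X Yv Ω) (lev : Ω → ℕ) (h : ℕ) (G : Fn X Yv Ω) (j : ℕ) (Y : X → Option Yv)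
    (e : Ω → Bool) : Finset X :=
  univ.filter fun x => G Y e = false ∧ hx acc lev h G j Y e x = true

end

/-- The parameters of the induction. -/
structure Par (t h N : ℕ) (r k K : ℕ → ℕ) : Prop where
  t_pos : 1 ≤ t
  k0 : (2 * t + 1) * (5 * t * r 0) ≤ k 0
  K0 : k 0 + t ≤ K 0
  kS : ∀ j, (2 * (t * K j) + 1) * (5 * (t * K j + k j) * r (j + 1)) ≤ k (j + 1)
  KS : ∀ j, k (j + 1) + t * K j ≤ K (j + 1)
  rS : ∀ j < h, (N + 1) ^ r (j + 1) * 2 * 4 ^ r (j + 1) ≤ 4 ^ r j

/-- A table without removed zeros. -/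
def tot {X Yv : Type} (Y : X → Yv) : X → Option Yv := fun x => some (Y x)

/-! ## Part B: blocks -/

/-- The variables of one copy of the quantum key. -/
abbrev VV (q : ℕ) : Type := Bool × (Fin q → Bool)

/-- Positions of the oracle. -/
inductive Crd (X Yv Ω : Type) (nn qq : Ω → ℕ) : Type
  | cst (b : Bool) : Crd X Yv Ω nn qq
  | bas (x : X) (y : Yv) : Crd X Yv Ω nn qq
  | key (s : Ω) : Crd X Yv Ω nn qq
  | blk (s : Ω) (i : Fin (nn s)) (v : VV (qq s)) : Crd X Yv Ω nn qq

/-- The values of the blocks. -/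
abbrev Blk {Ω : Type} (nn qq : Ω → ℕ) : Type := ∀ s : Ω, Fin (nn s) → VV (qq s) → Bool

/-- The value of the oracle at a position. -/
def vl {X Yv Ω : Type} [DecidableEq Yv] {nn qq : Ω → ℕ} (Y : X → Option Yv) (e : Ω → Bool)
    (P : Blk nn qq) : Crd X Yv Ω nn qq → Bool
  | .cst b => b
  | .bas x y => !decide (Y x = some y)
  | .key s => e s
  | .blk s i v => P s i v

/-- The position belongs to the constants, the table, or to an instance of level below `j`. -/
def Low {X Yv Ω : Type} {nn qq : Ω → ℕ} (lev : Ω → ℕ) (j : ℕ) : Crd X Yv Ω nn qq → Prop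
  | .cst _ => True
  | .bas _ _ => True
  | .key s => lev s < j
  | .blk s _ _ => lev s < j

/-- The value of a DNF. -/
def dnf {X Yv Ω : Type} [DecidableEq Yv] {nn qq : Ω → ℕ} (D : List (List (Crd X Yv Ω nn qq × Bool)))
    (P : Blk nn qq) : Fn X Yv Ω := fun Y e => D.any fun τ => τ.all fun c => vl Y e P c.1 == c.2

/-- The hypotheses on the DNFs of the instances. -/
structure Sys {X Yv Ω : Type} {nn qq : Ω → ℕ} (D : Ω → List (List (Crd X Yv Ω nn qq × Bool)))
    (lev : Ω → ℕ) (t h S : ℕ) : Prop where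
  len : ∀ s, (D s).length ≤ S
  width : ∀ s, ∀ τ ∈ D s, τ.length ≤ t
  low : ∀ s, ∀ τ ∈ D s, ∀ c ∈ τ, Low lev (lev s) c.1
  lt : ∀ s, lev s < h

/-- The answers of the instances for given blocks. -/
def accD {X Yv Ω : Type} [DecidableEq Yv] {nn qq : Ω → ℕ}
    (D : Ω → List (List (Crd X Yv Ω nn qq × Bool))) (P : Blk nn qq) : Ω → Fn X Yv Ω :=
  fun s => dnf (D s) P

/-- Change one copy. -/
def updC {Ω : Type} [DecidableEq Ω] {nn qq : Ω → ℕ} (P : Blk nn qq) (s : Ω) (i : Fin (nn s))
    (p : VV (qq s) → Bool) : Blk nn qq := Function.update P s (Function.update (P s) i p)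

/-! ## Part C: circuits and Fourier coefficients -/

/-- Signs. -/
def sg (b : Bool) : ℝ := if b then -1 else 1

/-- Indicator. -/
def bi (b : Bool) : ℝ := if b then 1 else 0

/-- `f` is computed by a formula of depth `d` whose gates are disjunctions, with arbitrary signs, of at
most `S` functions. -/
def Cl (V : Type) (S : ℕ) : ℕ → ((V → Bool) → Bool) → Prop
  | 0, f => (∃ b, ∀ y, f y = b) ∨ ∃ v, ∀ y, f y = y v
  | d + 1, f => ∃ (m : ℕ) (g : Fin m → (V → Bool) → Bool) (b : Fin m → Bool), m ≤ S ∧
      (∀ i, Cl V S d (g i)) ∧ ∀ y, (f y = true ↔ ∃ i, g i y = b i)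

/-- Restriction. -/
def rst {V α : Type} (ρ : V → Option Bool) (F : (V → Bool) → α) : (V → Bool) → α :=
  fun y => F fun v => (ρ v).getD (y v)

section fourier

variable {V : Type} [Fintype V] [DecidableEq V]

/-- Fourier coefficients. -/
noncomputable def hat (F : (V → Bool) → ℝ) (S : Finset V) : ℝ :=
  (∑ y, F y * ∏ u ∈ S, sg (y u)) / 2 ^ Fintype.card V

/-- The sum of the absolute values of the Fourier coefficients of order two. -/
noncomputable def L12 (F : (V → Bool) → ℝ) : ℝ := ∑ S ∈ powersetCard 2 (univ : Finset V), |hat F S|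

/-- Multilinear extension. -/
noncomputable def mle (F : (V → Bool) → ℝ) (W : V → ℝ) : ℝ :=
  ∑ y, (∏ v, (1 + sg (y v) * W v) / 2) * F y

end fourier

/-! ## Part D: the forrelated distribution -/

/-- The forrelation of two functions. -/
noncomputable def phi (q : ℕ) (p : VV q → Bool) : ℝ :=
  (∑ a, ∑ b, sg (p (false, a)) * hd q a b * sg (p (true, b))) / 2 ^ q

/-- The direction of a step. -/
noncomputable def dir (q : ℕ) (r : (Fin q → Bool) → Bool) : VV q → ℝ :=
  fun v => if v.1 then ∑ a, hd q v.2 a * sg (r a) else sg (r v.2)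

open Classical in
/-- One step of the stopped walk. -/
noncomputable def stp (q : ℕ) (δ : ℝ) (W : VV q → ℝ) (r : (Fin q → Bool) → Bool) : VV q → ℝ :=
  if ∀ v, |W v| ≤ 1 / 2 then fun v => W v + δ * dir q r v else W

/-- The expectation operator of one step. -/
noncomputable def AA (q : ℕ) (δ : ℝ) (G : (VV q → ℝ) → ℝ) : (VV q → ℝ) → ℝ :=
  fun W => (∑ r : (Fin q → Bool) → Bool, G (stp q δ W r)) / 2 ^ 2 ^ q

/-- The total variance of a coordinate. -/
noncomputable def eps2 (q : ℕ) : ℝ := 1 / (8 * (q + 3))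

/-- The number of steps. -/
def Tn (q : ℕ) : ℕ := 2 ^ (12 * q)

/-- The step size. -/
noncomputable def dl (q : ℕ) : ℝ := √(eps2 q / Tn q)

/-- The forrelated (`true`) and the uniform (`false`) distribution. -/
noncomputable def mu (b : Bool) (q : ℕ) (p : VV q → Bool) : ℝ :=
  if b then ((AA q (dl q))^[Tn q] fun W => ∏ v, (1 + sg (p v) * W v) / 2) (fun _ => 0)
  else 1 / 2 ^ (2 * 2 ^ q)

/-- The copies `p` allow to read the key bit `b`. -/
def DecA (q N : ℕ) (b : Bool) (p : Fin N → VV q → Bool) : Prop :=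
  (b = false → ∑ i, (N : ℝ) * phi q (p i) ^ 2 ≤ 1 / 3) ∧ (b = true → ∃ i, eps2 q / 4 ≤ phi q (p i))

/-! ## Part E: oracles -/

/-- The instance `s` has the answer yes. -/
def acc (prog : List Bool → List Bool → DT) (s : List Bool) (O : List Bool → Bool) : Prop :=
  ∃ w : List Bool, w.length ^ 2 ≤ s.length ∧ (prog s w).eval O = true

/-- The size condition on the universal machine. -/
def Small (prog : List Bool → List Bool → DT) : Prop :=
  ∀ s w : List Bool, w.length ^ 2 ≤ s.length → (prog s w).depth ^ 2 ≤ s.length ∧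
    ∃ m, m ^ 2 ≤ s.length ∧ (prog s w).Short m

open Classical in
/-- `O` is the oracle built from the seed `σ`. -/
def Bld (prog : List Bool → List Bool → DT) (σ O : List Bool → Bool) : Prop :=
  ∀ w, O w = xor (σ w) (decide (∃ s, w = key s ∧ acc prog s O))

/-- The `i`-th copy of the key of the instance `s`. -/
def cpy (σ : List Bool → Bool) (s : List Bool) (i : ℕ) : VV (qs s) → Bool :=
  fun v => σ (blk s i v.1 (List.ofFn v.2))

/-- The seed allows to read the key of the instance `s`. -/
def Dec (σ : List Bool → Bool) (s : List Bool) : Prop :=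
  DecA (qs s) (ns s) (σ (key s)) fun i => cpy σ s i

/-- The active instances. -/
abbrev Om (n a : ℕ) : Type := {s : List Bool // n ^ 2 ≤ s.length ∧ s.length < n ^ a}

/-- The level of an instance. -/
def lv (n : ℕ) (s : List Bool) : ℕ := Nat.log 2 (Nat.log n s.length)

/-- The positions of the stage `n`. -/
abbrev Cs (n a : ℕ) : Type :=
  Crd (Fin n → Bool) (Fin n → Bool) (Om n a) (fun s => ns s.1) (fun s => qs s.1)

open Classical in
/-- The position of a string; the strings which do not belong to the stage have the value given by `o`. -/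
noncomputable def cls (n a : ℕ) (o : List Bool → Bool) (w : List Bool) : Cs n a :=
  if h : ∃ p : (Fin n → Bool) × (Fin n → Bool), w = bse (List.ofFn p.1) (List.ofFn p.2) then
    .bas h.choose.1 h.choose.2
  else if h : ∃ s : Om n a, w = key s.1 then .key h.choose
  else if h : ∃ p : Σ s : Om n a, Fin (ns s.1) × VV (qs s.1),
      w = blk p.1.1 p.2.1 p.2.2.1 (List.ofFn p.2.2.2) then
    .blk h.choose.1 h.choose.2.1 h.choose.2.2
  else .cst (o w)

/-- The seed of the stage. -/
noncomputable def sd (n a : ℕ) (σ₀ : List Bool → Bool) (Y : (Fin n → Bool) → Option (Fin n → Bool))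
    (κ : Om n a → Bool) (P : Blk (fun s : Om n a => ns s.1) fun s => qs s.1) : List Bool → Bool :=
  fun w => vl Y κ P (cls n a σ₀ w)

end Pool.Agent.H6.NB
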