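import Pool.Agent.H6.NB.All

/-!
# An oracle relative to which NP is contained in BQP but the second level of the hierarchy is not
-/

set_option autoImplicit false

namespace Pool.Agent.H6.NB.NPEasySigma2Hard

open Pool.Agent.H6.NB

/-- Let `V 0, V 1, …` be nondeterministic polynomial-time oracle machines (for instance all of them)
and let `Q 0, Q 1, …` be families of quantum query algorithms (for instance all uniform ones of
polynomial time); on inputs of length `n` the family `Q k` makes at most `C * 2 ^ ((1/2 - ε) * n)` queries
of length at most `n ^ c + c`. Then there is an oracle `O` such that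

* all languages of the machines `V i` relative to `O` are decided with error at most `1/3` by the
explicit polynomial-time quantum algorithm with acceptance probability `yesProb`;
* for every `n` exactly one `u` of length `n` is such that all strings `bse u v`, `|v| = n`, lie in `O`
(so the language `usig O`, which asks whether the first bit of this `u` is `1`, and its complement are in
the second level of the polynomial hierarchy relative to `O`, even with unique witnesses);
* every `Q k` errs for infinitely many `n` on the input `0ⁿ` with respect to `usig O`. -/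
theorem result (V : ℕ → Verifier) (Q : ℕ → List Bool → QAlg)
    (h : ∀ k, ∃ (c C : ℕ) (ε : ℝ), 0 < ε ∧ ∀ x : List Bool, (Q k x).Short (x.length ^ c + c) ∧
      ((Q k x).T : ℝ) ≤ C * 2 ^ ((1 / 2 - ε) * x.length)) :
    ∃ O : List Bool → Bool,
      (∀ i x, (x ∈ (V i).lang O → 2 / 3 ≤ yesProb O (inst (V i).c i x)) ∧
        (x ∉ (V i).lang O → yesProb O (inst (V i).c i x) ≤ 1 / 3)) ∧
      OneRow O ∧
      ∀ k m, ∃ n ≥ m,
        ¬ Correct (Q k (List.replicate n false)) O (usig O) (List.replicate n false) := by
  obtain ⟨prog, hs, hp⟩ := pf_UNI V
  obtain ⟨σ, O, hB, hD, hR, hE⟩ := pf_FIN2 prog hs Q h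
  refine ⟨O, fun i x => ?_, hR, hE⟩
  have h1 := pf_YES prog σ O (inst (V i).c i x) hB (hD _)
  exact ⟨fun hx => h1.1 ((hp i x O).1 hx), fun hx => h1.2 fun ha => hx ((hp i x O).2 ha)⟩

end Pool.Agent.H6.NB.NPEasySigma2Hard
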