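import Mathlib

/-!
# An oracle relative to which NP is contained in BQP but the second level of PH is not: definitions

All definitions used in the statement. Oracles are functions `O : List Bool → Bool`.
-/

set_option autoImplicit false

namespace Pool.Agent.H6.NB

open scoped Matrix

/-! ### Quantum query algorithms -/

/-- A quantum query algorithm. The computational basis `basis` is finite; the basis state `i` queries
the string `query i` (`none`: no query), and the oracle `O` multiplies it by `-1` if it contains the
string. The algorithm starts in the unit vector `init`, applies the unitary `U 0`, and then `T` times a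
query followed by `U t`, `t = 1, …, T`; finally it measures in the computational basis and accepts iff
the outcome lies in `acc`. -/
structure QAlg where
  /-- the computational basis -/
  basis : Type
  [fin : Fintype basis]
  [dec : DecidableEq basis]
  /-- the query made by each basis state -/
  query : basis → Option (List Bool)
  /-- number of queries -/
  T : ℕ
  /-- the operations between the queries -/
  U : ℕ → Matrix basis basis ℂ
  unitary : ∀ t, U t ∈ Matrix.unitaryGroup basis ℂ
  /-- the initial state -/
  init : basis → ℂ
  norm_init : ∑ i, ‖init i‖ ^ 2 = 1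
  /-- the accepting basis states -/
  acc : Finset basis

attribute [instance] QAlg.fin QAlg.dec

namespace QAlg

variable (Q : QAlg)

/-- The phase by which the oracle `O` multiplies the basis state `i`. -/
noncomputable def phase (O : List Bool → Bool) (i : Q.basis) : ℂ :=
  match Q.query i with
  | none => 1
  | some w => if O w then -1 else 1

/-- The state after `t` queries. -/
noncomputable def state (O : List Bool → Bool) : ℕ → (Q.basis → ℂ)
  | 0 => Q.U 0 *ᵥ Q.init
  | t + 1 => Q.U (t + 1) *ᵥ fun i => Q.phase O i * state O t i

/-- The acceptance probability. -/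
noncomputable def prob (O : List Bool → Bool) : ℝ := ∑ i ∈ Q.acc, ‖Q.state O Q.T i‖ ^ 2

/-- All queries have length at most `m`. -/
def Short (m : ℕ) : Prop := ∀ i w, Q.query i = some w → w.length ≤ m

end QAlg

/-! ### Nondeterministic oracle machines -/

/-- Decision trees which query an oracle: if the oracle contains `w`, the tree `node w l r` continues
with `r`, otherwise with `l`. -/
inductive DT : Type
  | leaf (b : Bool) : DT
  | node (w : List Bool) (l r : DT) : DT

namespace DT

/-- The output of the tree. -/
def eval (O : List Bool → Bool) : DT → Bool
  | leaf b => b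
  | node w l r => if O w then r.eval O else l.eval O

/-- The maximal number of queries. -/
def depth : DT → ℕ
  | leaf _ => 0
  | node _ l r => max l.depth r.depth + 1

/-- All queries of the tree have length at most `m`. -/
def Short (m : ℕ) : DT → Prop
  | leaf _ => True
  | node w l r => w.length ≤ m ∧ l.Short m ∧ r.Short m

end DT

/-- A nondeterministic polynomial-time oracle machine, as far as its dependence on the oracle is
concerned: on input `x` it guesses a witness `w` with `|w| ≤ |x| ^ c + c`, and then makes at most
`|x| ^ c + c` adaptive queries of length at most `|x| ^ c + c`, described by the decision tree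
`tree x w`. (No uniformity is required.) -/
structure Verifier where
  c : ℕ
  tree : List Bool → List Bool → DT
  depth_le : ∀ x w, w.length ≤ x.length ^ c + c → (tree x w).depth ≤ x.length ^ c + c
  short : ∀ x w, w.length ≤ x.length ^ c + c → (tree x w).Short (x.length ^ c + c)

/-- The language of a verifier relative to the oracle `O`. -/
def Verifier.lang (V : Verifier) (O : List Bool → Bool) : Set (List Bool) :=
  {x | ∃ w : List Bool, w.length ≤ x.length ^ V.c + V.c ∧ (V.tree x w).eval O = true}

/-! ### Strings -/

/-- Each bit `b` is replaced by `1b`. -/
def dbl (x : List Bool) : List Bool := x.flatMap fun b => [true, b]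

/-- An injective code of triples `(x, y, i)`: `x` with each bit `b` written `1b`, then `0`, then `y`
with each bit written `1b`, then `0`, then `i` ones. -/
def code (x y : List Bool) (i : ℕ) : List Bool :=
  dbl x ++ false :: (dbl y ++ false :: List.replicate i true)

/-- The instance string for the input `x` of the machine number `i` with exponent `c`. -/
def inst (c i : ℕ) (x : List Bool) : List Bool :=
  code x (List.replicate i true) ((x.length ^ c + c + 1) ^ 2)

/-- The position of the entry `(u, v)` of the table. -/
def bse (u v : List Bool) : List Bool := false :: (u ++ v)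

/-- The position of the encrypted answer of the instance `s`. -/
def key (s : List Bool) : List Bool := true :: false :: s

/-- The positions of the two functions (`f = false, true`) of the `i`-th copy of the quantum key of the
instance `s`. -/
def blk (s : List Bool) (i : ℕ) (f : Bool) (z : List Bool) : List Bool :=
  true :: true :: code s z (2 * i + f.toNat)

/-! ### The quantum algorithm for the NP languages -/

/-- The entries of the Hadamard transform of `q` qubits. -/
noncomputable def hd (q : ℕ) (a b : Fin q → Bool) : ℝ :=
  (∏ i, if a i && b i then -1 else 1) / √(2 ^ q)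

/-- The Hadamard transform of `q` qubits (with one more qubit which is left alone). -/
noncomputable def hadI (q : ℕ) : Matrix ((Fin q → Bool) × Bool) ((Fin q → Bool) × Bool) ℂ :=
  Matrix.of fun i j => if i.2 = j.2 then (hd q i.1 j.1 : ℂ) else 0

/-- The Hadamard transform of `q` qubits and a negation of the last qubit. -/
noncomputable def hadX (q : ℕ) : Matrix ((Fin q → Bool) × Bool) ((Fin q → Bool) × Bool) ℂ :=
  Matrix.of fun i j => if i.2 = j.2 then 0 else (hd q i.1 j.1 : ℂ)

theorem sum_sgn (q : ℕ) (a b : Fin q → Bool) :
    ∑ c : Fin q → Bool, (∏ i, if a i && c i then (-1 : ℝ) else 1) *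
      (∏ i, if b i && c i then (-1 : ℝ) else 1) = if a = b then 2 ^ q else 0 := by
  have h1 : ∀ c : Fin q → Bool, (∏ i, if a i && c i then (-1 : ℝ) else 1) *
      (∏ i, if b i && c i then (-1 : ℝ) else 1) =
      ∏ i, ((if a i && c i then (-1 : ℝ) else 1) * (if b i && c i then (-1 : ℝ) else 1)) := by
    intro c
    rw [Finset.prod_mul_distrib]
  have h2 := (Fintype.prod_sum (fun (i : Fin q) (x : Bool) =>
    (if a i && x then (-1 : ℝ) else 1) * (if b i && x then (-1 : ℝ) else 1)))
  rw [Finset.sum_congr rfl fun c _ => h1 c, ← h2]
  split_ifs with h
  · subst h
    have : ∀ i : Fin q, ∑ x : Bool, ((if a i && x then (-1 : ℝ) else 1) *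
        (if a i && x then (-1 : ℝ) else 1)) = 2 := by
      intro i
      rw [Fintype.sum_bool]
      cases a i <;> norm_num
    rw [Finset.prod_congr rfl fun i _ => this i]
    simp
  · obtain ⟨i, hi⟩ := Function.ne_iff.1 h
    refine Finset.prod_eq_zero (Finset.mem_univ i) ?_
    rw [Fintype.sum_bool]
    revert hi
    cases a i <;> cases b i <;> simp

theorem hd_comm (q : ℕ) (a b : Fin q → Bool) : hd q a b = hd q b a := by
  unfold hd
  congr 1
  exact Finset.prod_congr rfl fun i _ => by rw [Bool.and_comm]

theorem hd_orth (q : ℕ) (a b : Fin q → Bool) :
    ∑ c, hd q a c * hd q b c = if a = b then 1 else 0 := by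
  have h0 : (0 : ℝ) < 2 ^ q := by positivity
  have h1 : ∀ c, hd q a c * hd q b c = ((∏ i, if a i && c i then (-1 : ℝ) else 1) *
      (∏ i, if b i && c i then (-1 : ℝ) else 1)) / 2 ^ q := by
    intro c
    unfold hd
    rw [div_mul_div_comm, Real.mul_self_sqrt h0.le]
  rw [Finset.sum_congr rfl fun c _ => h1 c, ← Finset.sum_div, sum_sgn]
  split_ifs
  · exact div_self h0.ne'
  · simp

theorem hadI_unitary (q : ℕ) : hadI q ∈ Matrix.unitaryGroup ((Fin q → Bool) × Bool) ℂ := by
  rw [Matrix.mem_unitaryGroup_iff]
  ext i j
  rw [Matrix.mul_apply, Fintype.sum_prod_type, Matrix.one_apply]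
  have h1 : ∀ x, ∑ y : Bool, hadI q i (x, y) * star (hadI q) (x, y) j =
      if i.2 = j.2 then ((hd q i.1 x * hd q j.1 x : ℝ) : ℂ) else 0 := by
    intro x
    rw [Fintype.sum_bool]
    simp only [hadI, Matrix.star_apply, Matrix.of_apply]
    rcases hi : i.2 with _ | _ <;> rcases hj : j.2 with _ | _ <;> simp
  rw [Finset.sum_congr rfl fun x _ => h1 x]
  by_cases h : i.2 = j.2
  · simp only [h, if_true]
    rw [← Complex.ofReal_sum, hd_orth]
    by_cases h' : i.1 = j.1
    · rw [if_pos h', if_pos (Prod.ext h' h)]; simp
    · rw [if_neg h', if_neg (fun e => h' (by rw [e]))]; simp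
  · simp only [h, if_false, Finset.sum_const_zero]
    rw [if_neg (fun e => h (by rw [e]))]

theorem hadX_unitary (q : ℕ) : hadX q ∈ Matrix.unitaryGroup ((Fin q → Bool) × Bool) ℂ := by
  rw [Matrix.mem_unitaryGroup_iff]
  ext i j
  rw [Matrix.mul_apply, Fintype.sum_prod_type, Matrix.one_apply]
  have h1 : ∀ x, ∑ y : Bool, hadX q i (x, y) * star (hadX q) (x, y) j =
      if i.2 = j.2 then ((hd q i.1 x * hd q j.1 x : ℝ) : ℂ) else 0 := by
    intro x
    rw [Fintype.sum_bool]
    simp only [hadX, Matrix.star_apply, Matrix.of_apply]
    rcases hi : i.2 with _ | _ <;> rcases hj : j.2 with _ | _ <;> simp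
  rw [Finset.sum_congr rfl fun x _ => h1 x]
  by_cases h : i.2 = j.2
  · simp only [h, if_true]
    rw [← Complex.ofReal_sum, hd_orth]
    by_cases h' : i.1 = j.1
    · rw [if_pos h', if_pos (Prod.ext h' h)]; simp
    · rw [if_neg h', if_neg (fun e => h' (by rw [e]))]; simp
  · simp only [h, if_false, Finset.sum_const_zero]
    rw [if_neg (fun e => h (by rw [e]))]

/-- The number of qubits used for the instance `s`. -/
def qs (s : List Bool) : ℕ := 10 * s.length + 100

/-- The number of copies of the quantum key of the instance `s`. -/
def ns (s : List Bool) : ℕ := (qs s + 1) ^ 4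

/-- The two-query circuit for the `i`-th copy of the key of the instance `s`: start with `q = qs s`
qubits in the state zero, Hadamard transform, query the first function, Hadamard transform, query the
second function, Hadamard transform, accept iff all `q` qubits are zero. (One more qubit says which
function is queried.) -/
noncomputable def forr (s : List Bool) (i : ℕ) : QAlg where
  basis := (Fin (qs s) → Bool) × Bool
  query := fun z => some (blk s i z.2 (List.ofFn z.1))
  T := 2
  U := fun t => if t = 1 then hadX (qs s) else hadI (qs s)
  unitary := fun t => by
    split_ifs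
    · exact hadX_unitary _
    · exact hadI_unitary _
  init := Pi.single (fun _ => false, false) 1
  norm_init := by
    rw [Finset.sum_eq_single ((fun _ => false, false) : (Fin (qs s) → Bool) × Bool)]
    · simp
    · intro b _ hb
      rw [Pi.single_eq_of_ne hb]; simp
    · simp
  acc := Finset.univ.filter fun z => z.1 = fun _ => false

/-- The acceptance probability of the following quantum algorithm on the instance `s`: for each
`i < ns s` run the two-query circuit `forr s i` independently `ns s` times; query the oracle at the
string `key s`; accept iff exactly one of the following holds: some run accepted, `O (key s)` is true.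
It uses `2 * (ns s) ^ 2 + 1` queries. -/
noncomputable def yesProb (O : List Bool → Bool) (s : List Bool) : ℝ :=
  if O (key s) then ∏ i ∈ Finset.range (ns s), (1 - (forr s i).prob O) ^ ns s
  else 1 - ∏ i ∈ Finset.range (ns s), (1 - (forr s i).prob O) ^ ns s

/-! ### The second level of the polynomial hierarchy -/

/-- A language in the second level of the polynomial hierarchy relative to `O`: `x` is a member iff
there is `u` such that for all `v` the oracle contains the string `bse u v`; `|u| = |v| = |x|`. -/
def sig (O : List Bool → Bool) : Set (List Bool) :=
  {x | ∃ u : List Bool, u.length = x.length ∧ ∀ v : List Bool, v.length = x.length → O (bse u v) = true}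

/-- The algorithm `Q` gives the right answer, with error probability at most `1/3`, to the question
whether `x` belongs to the language `L`. -/
def Correct (Q : QAlg) (O : List Bool → Bool) (L : Set (List Bool)) (x : List Bool) : Prop :=
  (x ∈ L → 2 / 3 ≤ Q.prob O) ∧ (x ∉ L → Q.prob O ≤ 1 / 3)

end Pool.Agent.H6.NB
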